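import Pool.Agent.Q66.TG.Hom
import Pool.Agent.Q96.TG.TC

set_option autoImplicit false

/-!
# Torsion of cokernels: determinants and removal of a kernel vector
-/

namespace Pool.Agent.V8H82.DM

open Pool.Agent.Q181.TG Matrix

theorem card_cok {α : Type} [Fintype α] [DecidableEq α] (M : Matrix α α ℤ) (h : M.det ≠ 0) :
    Nat.card (Cok M) = M.det.natAbs := by
  have hli : LinearIndependent ℤ M := by
    rw [Fintype.linearIndependent_iff]
    intro g hg
    have : g ᵥ* M = 0 := by
      rw [← hg]
      ext b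
      simp [vecMul, dotProduct]
    exact fun i => congrFun (Matrix.eq_zero_of_vecMul_eq_zero h this) i
  have := Submodule.natAbs_det_basis_change (Pi.basisFun ℤ α) (Submodule.span ℤ (Set.range M))
    (Module.Basis.span hli)
  rw [← this]
  congr 1
  have h2 : (((↑) : Submodule.span ℤ (Set.range M) → (α → ℤ)) ∘ (Module.Basis.span hli)) = M := by
    ext i b
    simp [Module.Basis.span_apply]
  rw [h2, Pi.basisFun_det]
  rfl

theorem tc_of_finite (E : Type) [AddCommGroup E] [Finite E] : tc E = Nat.card E := by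
  unfold tc
  refine Nat.card_congr (Equiv.subtypeUnivEquiv fun x => ?_)
  exact isOfFinAddOrder_of_finite x

theorem tc_det {α : Type} [Fintype α] [DecidableEq α] (M : Matrix α α ℤ) (h : M.det ≠ 0) :
    tc (Cok M) = M.det.natAbs := by
  have h1 := card_cok M h
  have h2 : Finite (Cok M) := Nat.finite_of_card_ne_zero (by rw [h1]; exact Int.natAbs_ne_zero.2 h)
  rw [tc_of_finite, h1]

/-- adding the matrix unit of `y` does not change the torsion if there are a right null vector and a
left null vector with entry `1` at `y` -/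
theorem tc_add {Y : Type} [Fintype Y] [DecidableEq Y] (N : Matrix Y Y ℤ) (y : Y) (u w : Y → ℤ)
    (hu : ∀ z, ∑ x, N z x * u x = 0) (hw : ∀ z, ∑ x, w x * N x z = 0) (huy : u y = 1)
    (hwy : w y = 1) : tc (Cok (N + Matrix.single y y 1)) = tc (Cok N) := by
  set N' := N + Matrix.single y y (1 : ℤ) with hN'
  set Λ := Submodule.span ℤ (Set.range N) with hΛ
  set Λ' := Submodule.span ℤ (Set.range N') with hΛ'
  -- the functional
  let φ : (Y → ℤ) →ₗ[ℤ] ℤ := 
    { toFun := fun x => ∑ z, x z * u z
      map_add' := by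
        intro a b
        simp [add_mul, Finset.sum_add_distrib]
      map_smul' := by
        intro c a
        simp [Finset.mul_sum, mul_assoc] }
  have hφ : ∀ x, φ x = ∑ z, x z * u z := fun x => rfl
  have hφe : φ (Pi.single y 1) = 1 := by
    rw [hφ, Finset.sum_eq_single y]
    · simp [huy]
    · intro z _ hz
      simp [hz]
    · simp
  have hφΛ : ∀ x ∈ Λ, φ x = 0 := by
    intro x hx
    have h1 : Λ ≤ LinearMap.ker φ := by
      rw [hΛ, Submodule.span_le]
      rintro _ ⟨z, rfl⟩
      exact hu z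
    exact h1 hx
  have hN'z : ∀ z, z ≠ y → N' z = N z := by
    intro z hz
    funext x
    simp [hN', Matrix.single_apply, Ne.symm hz]
  have hN'y : N' y = N y + Pi.single y 1 := by
    funext x
    simp only [hN', Matrix.add_apply, Matrix.single_apply, Pi.add_apply, Pi.single_apply, true_and]
    simp only [eq_comm]
  -- the row `y` is a combination of the others
  have hrow : N y ∈ Λ' := by
    have h1 : N y = ∑ z ∈ Finset.univ.erase y, (- w z) • N z := by
      have h2 : ∑ z, w z • N z = 0 := by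
        funext x
        simp only [Finset.sum_apply, Pi.smul_apply, smul_eq_mul, Pi.zero_apply]
        exact hw x
      rw [← Finset.add_sum_erase _ _ (Finset.mem_univ y), hwy, one_smul] at h2
      have h3 : ∑ z ∈ Finset.univ.erase y, (- w z) • N z =
          - ∑ z ∈ Finset.univ.erase y, w z • N z := by
        rw [← Finset.sum_neg_distrib]
        exact Finset.sum_congr rfl fun z _ => neg_smul _ _
      rw [h3]
      exact eq_neg_of_add_eq_zero_left h2
    rw [h1]
    refine Submodule.sum_mem _ fun z hz => Submodule.smul_mem _ _ (Submodule.subset_span ⟨z, ?_⟩)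
    exact hN'z z (Finset.ne_of_mem_erase hz)
  have he : (Pi.single y 1 : Y → ℤ) ∈ Λ' := by
    have h1 : N' y ∈ Λ' := Submodule.subset_span ⟨y, rfl⟩
    rw [hN'y] at h1
    have h2 := Submodule.sub_mem _ h1 hrow
    rwa [add_sub_cancel_left] at h2
  have hle : Λ ≤ Λ' := by
    rw [hΛ, Submodule.span_le]
    rintro _ ⟨z, rfl⟩
    by_cases hz : z = y
    · rw [hz]
      exact hrow
    · exact Submodule.subset_span ⟨z, hN'z z hz⟩
  -- the map
  let ψ : (Y → ℤ) →ₗ[ℤ] (Y → ℤ) := LinearMap.id - (LinearMap.toSpanSingleton ℤ _ (Pi.single y 1)) ∘ₗ φ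
  have hψ : ∀ x, ψ x = x - φ x • (Pi.single y 1 : Y → ℤ) := fun x => rfl
  have hψΛ : Λ' ≤ Λ.comap ψ := by
    rw [hΛ', Submodule.span_le]
    rintro _ ⟨z, rfl⟩
    change ψ (N' z) ∈ Λ
    have h1 : N z ∈ Λ := Submodule.subset_span ⟨z, rfl⟩
    by_cases hz : z = y
    · subst hz
      rw [hψ, hN'y, map_add, hφΛ _ h1, hφe, zero_add, one_smul, add_sub_cancel_right]
      exact h1
    · rw [hN'z z hz, hψ, hφΛ _ h1, zero_smul, sub_zero]
      exact h1
  let Ψ : Cok N' →ₗ[ℤ] Cok N := Submodule.mapQ Λ' Λ ψ hψΛ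
  refine Pool.Agent.Q66.TG.tc_eq Ψ.toAddMonoidHom ?_ ?_
  · change Function.Injective Ψ
    rw [← LinearMap.ker_eq_bot, LinearMap.ker_eq_bot']
    intro x hx
    obtain ⟨v, rfl⟩ := Submodule.Quotient.mk_surjective _ x
    have h1 : Ψ (Submodule.Quotient.mk v) = Submodule.Quotient.mk (ψ v) := rfl
    rw [h1, Submodule.Quotient.mk_eq_zero] at hx
    rw [Submodule.Quotient.mk_eq_zero]
    have h2 : v = ψ v + φ v • (Pi.single y 1 : Y → ℤ) := by
      rw [hψ]
      abel
    rw [h2]
    exact Submodule.add_mem _ (hle hx) (Submodule.smul_mem _ _ he)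
  · intro x hx
    obtain ⟨v, rfl⟩ := Submodule.Quotient.mk_surjective _ x
    obtain ⟨k, hk, hkv⟩ := isOfFinAddOrder_iff_nsmul_eq_zero.mp hx
    have h1 : (Submodule.Quotient.mk (k • v) : Cok N) = 0 := hkv
    rw [Submodule.Quotient.mk_eq_zero] at h1
    have h2 := hφΛ _ h1
    rw [map_nsmul, nsmul_eq_mul] at h2
    have h3 : φ v = 0 := by
      rcases mul_eq_zero.mp h2 with h5 | h5
      · exact absurd (by exact_mod_cast h5) hk.ne'
      · exact h5
    refine ⟨Submodule.Quotient.mk v, ?_⟩
    have h4 : Ψ (Submodule.Quotient.mk v) = Submodule.Quotient.mk (ψ v) := rfl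
    change Ψ (Submodule.Quotient.mk v) = _
    rw [h4, hψ, h3, zero_smul, sub_zero]

end Pool.Agent.V8H82.DM
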