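import Pool.Agent.V8H82.DM.Green
import Pool.Agent.V8H82.DM.Tc

set_option autoImplicit false

/-!
# The determinant of `N + s` and the torsion of the cokernel
-/

namespace Pool.Agent.V8H82.DM

open Finset Matrix Filter Topology
open Pool.Agent.Q181.TG (tc Cok)

variable {Y : Type} [Fintype Y] [DecidableEq Y]

theorem Ms_add (N : Matrix Y Y ℤ) (s h : ℝ) : Ms N (s + h) = Ms N s + h • (1 : Matrix Y Y ℝ) := by
  unfold Ms
  rw [add_smul, add_assoc]

theorem hasDerivAt_det (N : Matrix Y Y ℤ) (hN : DD N) (s : ℝ) (hs : 0 < s) :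
    HasDerivAt (fun t => (Ms N t).det) ((Ms N s).det * (Gs N s).trace) s := by
  set p := (det (1 + (Polynomial.X : Polynomial ℝ) • (Gs N s).map Polynomial.C)).divX.divX with hp
  have h1 : ∀ t, (Ms N t).det = (Ms N s).det *
      (1 + (Gs N s).trace * (t - s) + p.eval (t - s) * (t - s) ^ 2) := by
    intro t
    have h2 : Ms N t = Ms N s * (1 + (t - s) • Gs N s) := by
      have h3 : t = s + (t - s) := by ring
      rw [mul_add, mul_one, Matrix.mul_smul, Ms_Gs N hN s hs, ← Ms_add, ← h3]
    rw [h2, det_mul, det_one_add_smul]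
  have h2 : HasDerivAt (fun t : ℝ => (Ms N s).det *
      (1 + (Gs N s).trace * (t - s) + p.eval (t - s) * (t - s) ^ 2))
      ((Ms N s).det * (Gs N s).trace) s := by
    have h3 : HasDerivAt (fun t : ℝ => t - s) 1 s := (hasDerivAt_id s).sub_const s
    have h4 : HasDerivAt (fun t : ℝ => p.eval (t - s)) (p.derivative.eval (s - s)) s :=
      (p.hasDerivAt (s - s)).comp_sub_const s s
    have h5 := (((h3.const_mul (Gs N s).trace).const_add 1).add (h4.mul (h3.pow 2))).const_mul
      (Ms N s).det
    refine h5.congr_deriv ?_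
    simp
  have h3 : (fun t => (Ms N t).det) = fun t : ℝ => (Ms N s).det *
      (1 + (Gs N s).trace * (t - s) + p.eval (t - s) * (t - s) ^ 2) := funext h1
  rw [h3]
  exact h2

theorem hasDerivAt_log (N : Matrix Y Y ℤ) (hN : DD N) (s : ℝ) (hs : 0 < s) :
    HasDerivAt (fun t => Real.log (Ms N t).det) ((Gs N s).trace) s := by
  have h1 := (hasDerivAt_det N hN s hs).log (det_ne N hN s hs)
  have h2 : (Ms N s).det * (Gs N s).trace / (Ms N s).det = (Gs N s).trace := by
    field_simp [det_ne N hN s hs]
  rwa [h2] at h1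

theorem Ms_zero_det (N : Matrix Y Y ℤ) : (Ms N 0).det = (N.det : ℝ) := by
  unfold Ms
  rw [zero_smul, add_zero]
  have := (Int.castRingHom ℝ).map_det N
  simpa using this.symm

theorem cont_det (N : Matrix Y Y ℤ) : Continuous fun t : ℝ => (Ms N t).det := by
  unfold Ms
  exact Continuous.matrix_det (by fun_prop)

/-- if all vertices are good then the matrix is nonsingular -/
theorem det_good (N : Matrix Y Y ℤ) (hN : DD N) (hg : ∀ y, good N y) : N.det ≠ 0 := by
  intro h
  have h0 : (Ms N 0).det = 0 := by rw [Ms_zero_det, h, Int.cast_zero]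
  obtain ⟨v, hv, hv0⟩ := Matrix.exists_mulVec_eq_zero_iff.2 h0
  have h1 := dot_Ms N 0 v
  rw [hv0, dotProduct_zero, zero_mul, add_zero] at h1
  -- path lemma
  have h2 : ∀ y, ∀ s : ℝ, 0 < s → s ≤ 1 → Real.sqrt s / 8 * v y ^ 2 ≤ s * ∑ z, v z ^ 2 := by
    intro y s hs hs1
    have h3 : Real.sqrt s / 8 * v y ^ 2 ≤ qf N v + s * ∑ z, v z ^ 2 := by
      rcases hg y with h | ⟨z, ε, h, h'⟩
      · exact path_lemma N hN v y y (-1) h (Or.inr (by push_cast; nlinarith [sq_nonneg (v y)]))
          s hs hs1
      · exact path_lemma N hN v y z ε h (Or.inl h') s hs hs1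
    rwa [← h1, zero_add] at h3
  obtain ⟨y, hy⟩ : ∃ y, v y ≠ 0 := by
    by_contra h3
    push Not at h3
    exact hv (funext h3)
  set m := ∑ z, v z ^ 2 with hm
  have hm0 : 0 ≤ m := Finset.sum_nonneg fun z _ => sq_nonneg _
  have hvy : 0 < v y ^ 2 := by positivity
  -- choose `s` with `√s * m < v y ^ 2 / 8`
  set r : ℝ := min 1 (v y ^ 2 / (16 * (m + 1))) with hr
  have hr0 : 0 < r := by
    rw [hr]
    exact lt_min one_pos (by positivity)
  have hr1 : r ≤ 1 := min_le_left _ _
  have hr2 : r * (16 * (m + 1)) ≤ v y ^ 2 := by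
    have h3 : r ≤ v y ^ 2 / (16 * (m + 1)) := min_le_right _ _
    rwa [le_div_iff₀ (by positivity)] at h3
  have h3 := h2 y (r ^ 2) (by positivity) (by nlinarith)
  rw [Real.sqrt_sq hr0.le] at h3
  have h4 : r * (v y ^ 2 / 8) ≤ r * (r * m) := by nlinarith
  have h5 : v y ^ 2 / 8 ≤ r * m := le_of_mul_le_mul_left h4 hr0
  nlinarith

/-- the good case -/
theorem log_good (N : Matrix Y Y ℤ) (hN : DD N) (hg : ∀ y, good N y) (s : ℝ) (hs : 0 < s)
    (hs1 : s ≤ 1) : Real.log (N.det : ℝ) ≤ Real.log (Ms N s).det ∧
      Real.log (Ms N s).det ≤ Real.log (N.det : ℝ) + 16 * Fintype.card Y * Real.sqrt s := by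
  have hd := det_good N hN hg
  have hd' : (Ms N 0).det ≠ 0 := by
    rw [Ms_zero_det]
    exact_mod_cast hd
  have hc : ContinuousOn (fun t => Real.log (Ms N t).det) (Set.Icc 0 s) := by
    intro t ht
    refine ((cont_det N).continuousAt.log ?_).continuousWithinAt
    rcases ht.1.eq_or_lt with h | h
    · rw [← h]
      exact hd'
    · exact det_ne N hN t h
  have htr : ∀ t, 0 < t → t ≤ 1 → 0 ≤ (Gs N t).trace ∧
      (Gs N t).trace ≤ Fintype.card Y * (8 / Real.sqrt t) := by
    intro t ht ht1
    constructor
    · refine Finset.sum_nonneg fun y _ => ?_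
      exact (green_good N hN y (hg y) t ht ht1).1
    · have h1 : (Gs N t).trace ≤ ∑ y : Y, 8 / Real.sqrt t :=
        Finset.sum_le_sum fun y _ => (green_good N hN y (hg y) t ht ht1).2
      rw [Finset.sum_const, nsmul_eq_mul, Finset.card_univ] at h1
      exact h1
  constructor
  · have hmono : MonotoneOn (fun t => Real.log (Ms N t).det) (Set.Icc 0 s) := by
      refine monotoneOn_of_deriv_nonneg (convex_Icc 0 s) hc ?_ ?_
      · intro t ht
        rw [interior_Icc] at ht
        exact (hasDerivAt_log N hN t ht.1).differentiableAt.differentiableWithinAt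
      · intro t ht
        rw [interior_Icc] at ht
        rw [(hasDerivAt_log N hN t ht.1).deriv]
        exact (htr t ht.1 (ht.2.le.trans hs1)).1
    have h1 := hmono (Set.left_mem_Icc.2 hs.le) (Set.right_mem_Icc.2 hs.le) hs.le
    simp only [Ms_zero_det] at h1
    exact h1
  · have hanti : AntitoneOn (fun t => Real.log (Ms N t).det -
        16 * Fintype.card Y * Real.sqrt t) (Set.Icc 0 s) := by
      have hder : ∀ t, 0 < t → HasDerivAt (fun t => Real.log (Ms N t).det -
          16 * Fintype.card Y * Real.sqrt t)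
          ((Gs N t).trace - 16 * Fintype.card Y * (1 / (2 * Real.sqrt t))) t := by
        intro t ht
        exact (hasDerivAt_log N hN t ht).sub ((Real.hasDerivAt_sqrt ht.ne').const_mul _)
      refine antitoneOn_of_deriv_nonpos (convex_Icc 0 s) ?_ ?_ ?_
      · exact hc.sub (by fun_prop)
      · intro t ht
        rw [interior_Icc] at ht
        exact (hder t ht.1).differentiableAt.differentiableWithinAt
      · intro t ht
        rw [interior_Icc] at ht
        rw [(hder t ht.1).deriv]
        have h1 := (htr t ht.1 (ht.2.le.trans hs1)).2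
        have h2 : 16 * (Fintype.card Y : ℝ) * (1 / (2 * Real.sqrt t)) =
          Fintype.card Y * (8 / Real.sqrt t) := by
          have : 0 < Real.sqrt t := Real.sqrt_pos.2 ht.1
          field_simp
          ring
        rw [h2]
        linarith
    have h1 := hanti (Set.left_mem_Icc.2 hs.le) (Set.right_mem_Icc.2 hs.le) hs.le
    simp only [Ms_zero_det, Real.sqrt_zero, mul_zero, sub_zero] at h1
    linarith

section add

variable (N : Matrix Y Y ℤ) (y : Y)

/-- one is added to the diagonal entry of `y` -/
def Nd : Matrix Y Y ℤ := N + Matrix.single y y 1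

theorem Nd_apply (z w : Y) : Nd N y z w = N z w + if z = y ∧ w = y then 1 else 0 := by
  unfold Nd
  rw [Matrix.add_apply, Matrix.single_apply]
  congr 1
  refine if_congr ?_ rfl rfl
  constructor
  · rintro ⟨h, h'⟩
    exact ⟨h.symm, h'.symm⟩
  · rintro ⟨h, h'⟩
    exact ⟨h.symm, h'.symm⟩

theorem Nd_off (z w : Y) (h : w ≠ z) : Nd N y z w = N z w := by
  rw [Nd_apply, if_neg, add_zero]
  rintro ⟨rfl, rfl⟩
  exact h rfl

variable {N}

theorem Nd_row (hN : DD N) (z : Y) : ∑ w, |Nd N y z w| = ∑ w, |N z w| + if z = y then 1 else 0 := by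
  have h1 : ∀ w, |Nd N y z w| = |N z w| + if w = y then (if z = y then 1 else 0) else 0 := by
    intro w
    rw [Nd_apply]
    by_cases h : z = y
    · by_cases h' : w = y
      · subst h
        subst h'
        simp only [and_self, if_true]
        have := hN.diag_nonneg w
        rw [abs_of_nonneg this, abs_of_nonneg (by omega)]
      · simp [h']
    · simp [h]
  rw [Finset.sum_congr rfl fun w _ => h1 w, Finset.sum_add_distrib, Finset.sum_ite_eq' univ y]
  simp

theorem Nd_col (hN : DD N) (z : Y) : ∑ w, |Nd N y w z| = ∑ w, |N w z| + if z = y then 1 else 0 := by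
  have h1 : ∀ w, |Nd N y w z| = |N w z| + if w = y then (if z = y then 1 else 0) else 0 := by
    intro w
    rw [Nd_apply]
    by_cases h : z = y
    · by_cases h' : w = y
      · subst h
        subst h'
        simp only [and_self, if_true]
        have := hN.diag_nonneg w
        rw [abs_of_nonneg this, abs_of_nonneg (by omega)]
      · simp [h']
    · simp [h]
  rw [Finset.sum_congr rfl fun w _ => h1 w, Finset.sum_add_distrib, Finset.sum_ite_eq' univ y]
  simp

theorem Nd_DD (hN : DD N) : DD (Nd N y) := by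
  constructor
  · intro z
    rw [Nd_row y hN, Nd_apply]
    have := hN.row z
    by_cases h : z = y
    · simp only [h, and_self, if_true] at this ⊢
      omega
    · simp only [h, and_self, if_false] at this ⊢
      omega
  · intro z
    rw [Nd_col y hN, Nd_apply]
    have := hN.col z
    by_cases h : z = y
    · simp only [h, and_self, if_true] at this ⊢
      omega
    · simp only [h, and_self, if_false] at this ⊢
      omega

theorem Nd_dfc (hN : DD N) (z : Y) : dfc (Nd N y) z = dfc N z + if z = y then 2 else 0 := by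
  unfold dfc
  rw [Nd_row y hN, Nd_col y hN, Nd_apply]
  by_cases h : z = y
  · simp only [h, and_self, if_true]
    omega
  · simp only [h, and_self, if_false]
    omega

theorem Nd_gr : gr (Nd N y) = gr N := by
  ext p q
  simp only [gr]
  by_cases h : q.1 = p.1
  · simp [h]
  · rw [Nd_off N y _ _ h, Nd_off N y _ _ (Ne.symm h)]

theorem Nd_Reach (z w : Y) (ε : ℤˣ) : Reach (Nd N y) z w ε ↔ Reach N z w ε := by
  unfold Reach
  rw [Nd_gr]

theorem Nd_cls (z : Y) : cls (Nd N y) z = cls N z := by
  ext w
  simp only [cls, mem_filter, mem_univ, true_and, Nd_Reach]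

theorem Nd_good (hN : DD N) (z : Y) : good (Nd N y) z ↔ good N z ∨ z ∈ cls N y := by
  unfold good
  simp only [Nd_Reach, Nd_dfc y hN]
  constructor
  · rintro (h | ⟨w, ε, h1, h2⟩)
    · exact Or.inl (Or.inl h)
    · by_cases h : w = y
      · right
        simp only [cls, mem_filter, mem_univ, true_and]
        subst h
        exact ⟨ε, h1.symm'⟩
      · rw [if_neg h, add_zero] at h2
        exact Or.inl (Or.inr ⟨w, ε, h1, h2⟩)
  · rintro ((h | ⟨w, ε, h1, h2⟩) | h)
    · exact Or.inl h
    · right
      refine ⟨w, ε, h1, ?_⟩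
      split_ifs <;> omega
    · right
      simp only [cls, mem_filter, mem_univ, true_and] at h
      obtain ⟨ε, hε⟩ := h
      refine ⟨y, ε, hε.symm', ?_⟩
      rw [if_pos rfl]
      have := hN.dfc_nonneg y
      omega

open Classical in
theorem Nd_Pf (hN : DD N) (hb : ¬ good N y) (z : Y) :
    Pf N z = Pf (Nd N y) z + if z ∈ cls N y then 1 / ((cls N y).card : ℝ) else 0 := by
  unfold Pf
  rw [Nd_cls]
  by_cases h : z ∈ cls N y
  · rw [if_pos ((Nd_good y hN z).2 (Or.inr h)), if_pos h, zero_add]
    simp only [cls, mem_filter, mem_univ, true_and] at h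
    obtain ⟨ε, hε⟩ := h
    rw [if_neg fun h1 => hb (good_of_reach hε h1), cls_eq hε]
  · rw [if_neg h, add_zero]
    by_cases h1 : good N z
    · rw [if_pos h1, if_pos ((Nd_good y hN z).2 (Or.inl h1))]
    · rw [if_neg h1, if_neg]
      rw [Nd_good y hN z]
      tauto

theorem Nd_eta (hN : DD N) (hb : ¬ good N y) (z : Y) :
    Real.negMulLog (Pf N z) = Real.negMulLog (Pf (Nd N y) z) +
      if z ∈ cls N y then Real.negMulLog (1 / ((cls N y).card : ℝ)) else 0 := by
  classical
  rw [Nd_Pf y hN hb z]
  by_cases h : z ∈ cls N y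
  · have h1 : Pf (Nd N y) z = 0 := by
      unfold Pf
      rw [if_pos ((Nd_good y hN z).2 (Or.inr h))]
    rw [h1, if_pos h, if_pos h, zero_add, Real.negMulLog_zero, zero_add]
  · rw [if_neg h, if_neg h, add_zero, add_zero]

theorem sum_Pf (hN : DD N) (hb : ¬ good N y) : ∑ z, Pf N z = ∑ z, Pf (Nd N y) z + 1 := by
  classical
  rw [Finset.sum_congr rfl fun z _ => Nd_Pf y hN hb z, Finset.sum_add_distrib]
  congr 1
  rw [Finset.sum_ite_mem, Finset.univ_inter, Finset.sum_const, nsmul_eq_mul]
  have : (0 : ℝ) < ((cls N y).card : ℝ) := by exact_mod_cast card_cls_pos N y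
  field_simp

theorem sum_eta (hN : DD N) (hb : ¬ good N y) : ∑ z, Real.negMulLog (Pf N z) =
    ∑ z, Real.negMulLog (Pf (Nd N y) z) + Real.log ((cls N y).card : ℝ) := by
  classical
  rw [Finset.sum_congr rfl fun z _ => Nd_eta y hN hb z, Finset.sum_add_distrib]
  congr 1
  rw [Finset.sum_ite_mem, Finset.univ_inter, Finset.sum_const, nsmul_eq_mul]
  have : (0 : ℝ) < ((cls N y).card : ℝ) := by exact_mod_cast card_cls_pos N y
  unfold Real.negMulLog
  rw [one_div, Real.log_inv]
  field_simp

theorem Nd_tc (hN : DD N) (hb : ¬ good N y) : tc (Cok (Nd N y)) = tc (Cok N) :=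
  tc_add N y (uv N y) (uv N y) (N_uv hN hb) (uv_N hN hb) uv_self uv_self

theorem Nd_det (hN : DD N) (s : ℝ) (hs : 0 < s) :
    (Ms (Nd N y) s).det = (Ms N s).det * (1 + Gs N s y y) := by
  have h1 : Ms (Nd N y) s = Ms N s + replicateCol Unit (Pi.single y (1 : ℝ)) *
      replicateRow Unit (Pi.single y (1 : ℝ)) := by
    ext z w
    simp only [Ms, Matrix.add_apply, Matrix.map_apply, Nd_apply, Matrix.mul_apply,
      replicateCol_apply, replicateRow_apply, Finset.univ_unique, Finset.sum_singleton,
      Pi.single_apply]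
    by_cases h : z = y <;> by_cases h' : w = y <;> simp [h, h'] <;> ring
  rw [h1, det_add_replicateCol_mul_replicateRow (isUnit_iff_ne_zero.2 (det_ne N hN s hs))]
  congr 1
  rw [det_unique]
  simp only [Matrix.add_apply, Matrix.one_apply_eq]
  congr 1
  have h2 : (replicateRow Unit (Pi.single y (1 : ℝ)) * (Ms N s)⁻¹ *
      replicateCol Unit (Pi.single y (1 : ℝ))) default default = Gs N s y y := by
    simp [Matrix.mul_apply, Pi.single_apply, Gs]
  exact h2

theorem Nd_bad (hN : DD N) (hb : ¬ good N y) :
    Nat.card {z // ¬ good (Nd N y) z} + (cls N y).card = Nat.card {z // ¬ good N z} := by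
  classical
  rw [Nat.card_eq_fintype_card, Nat.card_eq_fintype_card, Fintype.card_subtype,
    Fintype.card_subtype]
  rw [← Finset.card_union_of_disjoint]
  · congr 1
    ext z
    simp only [mem_union, mem_filter, mem_univ, true_and, Nd_good y hN z]
    constructor
    · rintro (h | h)
      · tauto
      · simp only [cls, mem_filter, mem_univ, true_and] at h
        obtain ⟨ε, hε⟩ := h
        exact fun h1 => hb (good_of_reach hε h1)
    · intro h
      by_cases h1 : z ∈ cls N y
      · exact Or.inr h1
      · left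
        tauto
  · rw [Finset.disjoint_left]
    intro z hz hz'
    simp only [mem_filter, mem_univ, true_and, Nd_good y hN z] at hz
    tauto

end add

/-- the main error term -/
noncomputable def er (N : Matrix Y Y ℤ) (s : ℝ) : ℝ :=
  Real.log (Ms N s).det - Real.log s * ∑ y, Pf N y - ∑ y, Real.negMulLog (Pf N y)
    - Real.log (tc (Cok N))

theorem er_bounds (n : ℕ) : ∀ (N : Matrix Y Y ℤ), DD N → Nat.card {z // ¬ good N z} = n →
    ∀ (s : ℝ), 0 < s → s ≤ 1 → - (9 * (n : ℝ) * Real.sqrt s) ≤ er N s ∧
      er N s ≤ 16 * Fintype.card Y * Real.sqrt s := by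
  induction n using Nat.strong_induction_on with
  | _ n ih =>
    intro N hN hn s hs hs1
    have hsq : 0 < Real.sqrt s := Real.sqrt_pos.2 hs
    by_cases hg : ∀ y, good N y
    · have h1 := log_good N hN hg s hs hs1
      have h2 : ∀ y, Pf N y = 0 := by
        intro y
        unfold Pf
        rw [if_pos (hg y)]
      have h3 : er N s = Real.log (Ms N s).det - Real.log (N.det : ℝ) := by
        unfold er
        rw [tc_det N (det_good N hN hg)]
        simp only [h2, Finset.sum_const_zero, mul_zero, Real.negMulLog_zero, sub_zero]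
        congr 1
        rw [Nat.cast_natAbs, Int.cast_abs, Real.log_abs]
      rw [h3]
      constructor
      · have : 0 ≤ 9 * (n : ℝ) * Real.sqrt s := by positivity
        linarith
      · linarith
    · push Not at hg
      obtain ⟨y, hb⟩ := hg
      have h1 := Nd_bad y hN hb
      have h2 := card_cls_pos N y
      have h3 := ih (Nat.card {z // ¬ good (Nd N y) z}) (by omega) (Nd N y) (Nd_DD y hN) rfl s hs hs1
      set m : ℝ := ((cls N y).card : ℝ) with hm
      have hm0 : 0 < m := by
        rw [hm]
        exact_mod_cast h2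
      have hm1 : 1 ≤ m := by
        rw [hm]
        exact_mod_cast h2
      have hG := green_bad N hN y hb s hs hs1
      have hG0 : 0 < Gs N s y y := lt_of_lt_of_le (by positivity) hG.1
      have h4 : er N s = er (Nd N y) s - (Real.log (1 + Gs N s y y) + Real.log s + Real.log m) := by
        unfold er
        rw [sum_Pf y hN hb, sum_eta y hN hb, Nd_tc y hN hb, Nd_det y hN s hs,
          Real.log_mul (det_ne N hN s hs) (by linarith)]
        ring
      have h5 : Real.log (1 + Gs N s y y) + Real.log s + Real.log m =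
          Real.log (m * s * (1 + Gs N s y y)) := by
        rw [Real.log_mul (by positivity) (by linarith), Real.log_mul hm0.ne' hs.ne']
        ring
      have h6 : 1 ≤ m * s * (1 + Gs N s y y) := by
        have h7 : m * s * (1 / m / s) = 1 := by field_simp
        have h8 := mul_le_mul_of_nonneg_left hG.1 (by positivity : 0 ≤ m * s)
        rw [h7] at h8
        have : 0 < m * s := by positivity
        linarith
      have h7 : m * s * (1 + Gs N s y y) ≤ 1 + 9 * m * Real.sqrt s := by
        have h7 : m * s * (1 / m / s + 8 / Real.sqrt s) = 1 + 8 * m * Real.sqrt s := by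
          have : s = Real.sqrt s * Real.sqrt s := (Real.mul_self_sqrt hs.le).symm
          have h9 : m * s * (8 / Real.sqrt s) = 8 * m * Real.sqrt s := by
            rw [this, Real.sqrt_mul_self hsq.le]
            field_simp
          rw [mul_add, h9]
          congr 1
          field_simp
        have h8 := mul_le_mul_of_nonneg_left hG.2 (by positivity : 0 ≤ m * s)
        rw [h7] at h8
        have h9 : s ≤ Real.sqrt s := by
          have h10 : Real.sqrt s ≤ 1 := Real.sqrt_le_one.mpr hs1
          have : s = Real.sqrt s * Real.sqrt s := (Real.mul_self_sqrt hs.le).symm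
          nlinarith
        have h10 : m * s ≤ m * Real.sqrt s := mul_le_mul_of_nonneg_left h9 hm0.le
        linarith
      have h8 : 0 ≤ Real.log (m * s * (1 + Gs N s y y)) := Real.log_nonneg h6
      have h9 : Real.log (m * s * (1 + Gs N s y y)) ≤ 9 * m * Real.sqrt s := by
        have := Real.log_le_sub_one_of_pos (by linarith : 0 < m * s * (1 + Gs N s y y))
        linarith
      rw [h4, h5]
      have h10 : ((Nat.card {z // ¬ good (Nd N y) z} : ℕ) : ℝ) + m = n := by
        rw [hm, ← hn, ← h1]
        push_cast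
        ring
      constructor
      · have h11 : 9 * (n : ℝ) * Real.sqrt s =
          9 * ((Nat.card {z // ¬ good (Nd N y) z} : ℕ) : ℝ) * Real.sqrt s + 9 * m * Real.sqrt s := by
          rw [← h10]
          ring
        linarith [h3.1]
      · linarith [h3.2]

/-- **torsion and determinant** -/
theorem er_le (N : Matrix Y Y ℤ) (hN : DD N) (s : ℝ) (hs : 0 < s) (hs1 : s ≤ 1) :
    |er N s| ≤ 16 * Fintype.card Y * Real.sqrt s := by
  have h1 := er_bounds _ N hN rfl s hs hs1
  have h2 : (Nat.card {z // ¬ good N z} : ℝ) ≤ Fintype.card Y := by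
    have : Nat.card {z // ¬ good N z} ≤ Nat.card Y := Finite.card_subtype_le _
    rw [Nat.card_eq_fintype_card (α := Y)] at this
    exact_mod_cast this
  have hsq : 0 < Real.sqrt s := Real.sqrt_pos.2 hs
  rw [abs_le]
  refine ⟨?_, h1.2⟩
  have h3 : 9 * (Nat.card {z // ¬ good N z} : ℝ) * Real.sqrt s ≤ 16 * Fintype.card Y * Real.sqrt s := by
    have : (0 : ℝ) ≤ Fintype.card Y := Nat.cast_nonneg _
    refine mul_le_mul_of_nonneg_right ?_ hsq.le
    linarith
  linarith [h1.1]

end Pool.Agent.V8H82.DM
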