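import Pool.Agent.V8H82.DM.Main

set_option autoImplicit false

/-!
# Matrices in which every row and every column is dominated by one coefficient
-/

namespace Pool.Agent.V8H82.DM

open Finset Matrix Filter Topology
open Pool.Agent.Q181.TG (reg tc Cok Far)

variable {G : Type} [Group G]

theorem nm_eq_sum (a : MonoidAlgebra ℤ G) (T : Finset G) (hT : a.coeff.support ⊆ T) :
    nm a = ∑ h ∈ T, |a.coeff h| := by
  unfold nm
  refine Finset.sum_subset hT fun h _ hh => ?_
  rw [Finsupp.notMem_support_iff.1 hh, abs_zero]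

theorem nm_single_mul (g : G) (ε : ℤ) (hε : |ε| = 1) (a : MonoidAlgebra ℤ G) :
    nm (MonoidAlgebra.single g ε * a) = nm a := by
  classical
  have h1 : (MonoidAlgebra.single g ε * a).coeff.support ⊆ a.coeff.support.image (g * ·) := by
    intro h hh
    rw [Finsupp.mem_support_iff, MonoidAlgebra.coeff_single_mul_apply] at hh
    rw [Finset.mem_image]
    refine ⟨g⁻¹ * h, ?_, by simp⟩
    rw [Finsupp.mem_support_iff]
    intro h2
    rw [h2, mul_zero] at hh
    exact hh rfl
  rw [nm_eq_sum _ _ h1, Finset.sum_image (fun x _ y _ h => mul_left_cancel h)]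
  unfold nm
  refine Finset.sum_congr rfl fun h _ => ?_
  rw [MonoidAlgebra.coeff_single_mul_apply, abs_mul, hε, one_mul]
  simp

theorem nm_neg (a : MonoidAlgebra ℤ G) : nm (-a) = nm a := by
  unfold nm
  rw [MonoidAlgebra.coeff_neg, Finsupp.support_neg]
  refine Finset.sum_congr rfl fun h _ => ?_
  rw [Finsupp.neg_apply, abs_neg]

theorem nm_sub (a : MonoidAlgebra ℤ G) (c : ℕ) (h0 : 0 ≤ a.coeff 1) (hc : a.coeff 1 ≤ c) :
    nm (c • (1 : MonoidAlgebra ℤ G) - a) ≤ nm a + c - 2 * a.coeff 1 := by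
  classical
  have hco : ∀ h, (c • (1 : MonoidAlgebra ℤ G) - a).coeff h = (if h = 1 then (c : ℤ) else 0) -
      a.coeff h := by
    intro h
    rw [MonoidAlgebra.coeff_sub, Finsupp.sub_apply, MonoidAlgebra.coeff_smul_apply,
      MonoidAlgebra.one_def, MonoidAlgebra.coeff_single_apply]
    by_cases h1 : h = 1
    · subst h1; simp
    · rw [if_neg (Ne.symm h1), if_neg h1]
      simp
  have h1 : (c • (1 : MonoidAlgebra ℤ G) - a).coeff.support ⊆ insert 1 a.coeff.support := by
    intro h hh
    rw [Finsupp.mem_support_iff, hco] at hh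
    rw [Finset.mem_insert]
    by_cases h2 : h = 1
    · exact Or.inl h2
    · right
      rw [if_neg h2, zero_sub] at hh
      rw [Finsupp.mem_support_iff]
      exact fun h3 => hh (by rw [h3, neg_zero])
  rw [nm_eq_sum _ _ h1, nm_eq_sum a (insert 1 a.coeff.support) (Finset.subset_insert _ _),
    ← Finset.add_sum_erase _ _ (Finset.mem_insert_self 1 a.coeff.support),
    ← Finset.add_sum_erase _ (fun h => |a.coeff h|) (Finset.mem_insert_self 1 a.coeff.support)]
  have h2 : ∑ h ∈ (insert 1 a.coeff.support).erase 1, |(c • (1 : MonoidAlgebra ℤ G) - a).coeff h| =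
      ∑ h ∈ (insert 1 a.coeff.support).erase 1, |a.coeff h| := by
    refine Finset.sum_congr rfl fun h hh => ?_
    rw [hco, if_neg (Finset.ne_of_mem_erase hh), zero_sub, abs_neg]
  rw [h2, hco, if_pos rfl, abs_of_nonneg (by omega), abs_of_nonneg h0]
  omega

/-- In every row and in every column of `A` there is one coefficient whose absolute value is at least the
sum of the absolute values of all other coefficients of the row and of the column: `σ i` is the column
and `g i` the group element of this coefficient for the row `i`. -/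
def Dom {ι κ : Type} [Fintype ι] [Fintype κ] (A : Matrix ι κ (MonoidAlgebra ℤ G)) : Prop :=
  ∃ (σ : ι ≃ κ) (g : ι → G),
    (∀ i, ∑ j, ∑ h ∈ (A i j).coeff.support, |(A i j).coeff h| ≤ 2 * |(A i (σ i)).coeff (g i)|) ∧
    ∀ i, ∑ i', ∑ h ∈ (A i' (σ i)).coeff.support, |(A i' (σ i)).coeff h| ≤
      2 * |(A i (σ i)).coeff (g i)|

theorem span_sign {α β : Type} (M : Matrix α β ℤ) (ε : α → ℤ) (hε : ∀ a, ε a = 1 ∨ ε a = -1) :
    Submodule.span ℤ (Set.range (fun a => ε a • M a)) = Submodule.span ℤ (Set.range M) := by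
  apply le_antisymm
  · rw [Submodule.span_le]
    rintro _ ⟨a, rfl⟩
    exact Submodule.smul_mem _ _ (Submodule.subset_span ⟨a, rfl⟩)
  · rw [Submodule.span_le]
    rintro _ ⟨a, rfl⟩
    have h1 : M a = ε a • (ε a • M a) := by
      rw [smul_smul]
      rcases hε a with h | h <;> rw [h] <;> simp
    rw [h1]
    exact Submodule.smul_mem _ _ (Submodule.subset_span ⟨a, rfl⟩)

/-- reduction to the form `c - B` -/
theorem Dom.reduce {ι κ : Type} [Fintype ι] [Fintype κ] [DecidableEq ι]
    (A : Matrix ι κ (MonoidAlgebra ℤ G)) (hA : Dom A) :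
    ∃ (c : ℕ) (B : Matrix ι ι (MonoidAlgebra ℤ G)), (∀ i, ∑ j, nm (B i j) ≤ c) ∧
      (∀ j, ∑ i, nm (B i j) ≤ c) ∧ ∀ (X : Type) [Fintype X] [MulAction G X],
        tc (Cok (reg X (c • (1 : Matrix ι ι (MonoidAlgebra ℤ G)) - B))) = tc (Cok (reg X A)) := by
  classical
  obtain ⟨σ, g, hr, hc⟩ := hA
  set a : ι → ℤ := fun i => (A i (σ i)).coeff (g i) with ha
  set ε : ι → ℤ := fun i => if a i < 0 then -1 else 1 with hε
  have hε1 : ∀ i, ε i = 1 ∨ ε i = -1 := by
    intro i
    simp only [hε]
    split_ifs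
    · exact Or.inr rfl
    · exact Or.inl rfl
  have hε2 : ∀ i, |ε i| = 1 := by
    intro i
    rcases hε1 i with h | h <;> rw [h] <;> simp
  have hε3 : ∀ i, ε i * a i = |a i| := by
    intro i
    simp only [hε]
    split_ifs with h
    · rw [abs_of_neg h]; ring
    · rw [abs_of_nonneg (by omega)]; ring
  set A' : Matrix ι ι (MonoidAlgebra ℤ G) :=
    fun i j => MonoidAlgebra.single (g i)⁻¹ (ε i) * A i (σ j) with hA'
  have hnm : ∀ i j, nm (A' i j) = nm (A i (σ j)) := fun i j => nm_single_mul _ _ (hε2 i) _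
  have hd : ∀ i, (A' i i).coeff 1 = |a i| := by
    intro i
    rw [hA', MonoidAlgebra.coeff_single_mul_apply, ← hε3 i]
    simp [ha]
  set c : ℕ := ∑ i, (a i).natAbs with hcdef
  have hac : ∀ i, |a i| ≤ c := by
    intro i
    have h1 : (a i).natAbs ≤ c :=
      Finset.single_le_sum (f := fun i => (a i).natAbs) (fun _ _ => Nat.zero_le _) (mem_univ i)
    rw [Int.abs_eq_natAbs]
    exact_mod_cast h1
  set B : Matrix ι ι (MonoidAlgebra ℤ G) := c • (1 : Matrix ι ι (MonoidAlgebra ℤ G)) - A' with hB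
  have hBoff : ∀ i j, i ≠ j → nm (B i j) = nm (A i (σ j)) := by
    intro i j hij
    rw [← hnm, hB, Matrix.sub_apply, Matrix.smul_apply, Matrix.one_apply_ne hij, smul_zero, zero_sub,
      nm_neg]
  have hBon : ∀ i, nm (B i i) ≤ nm (A i (σ i)) + c - 2 * |a i| := by
    intro i
    rw [← hnm, hB, Matrix.sub_apply, Matrix.smul_apply, Matrix.one_apply_eq, ← hd i]
    refine nm_sub _ c ?_ ?_
    · rw [hd]; exact abs_nonneg _
    · rw [hd]; exact hac i
  refine ⟨c, B, fun i => ?_, fun j => ?_, fun X _ _ => ?_⟩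
  · have h1 : ∑ j, nm (A i (σ j)) = ∑ j, nm (A i j) := Equiv.sum_comp σ fun j => nm (A i j)
    have h2 : ∑ j, nm (A i j) ≤ 2 * |a i| := hr i
    rw [← Finset.add_sum_erase _ _ (Finset.mem_univ i)] at h1 ⊢
    have h3 : ∑ j ∈ univ.erase i, nm (B i j) = ∑ j ∈ univ.erase i, nm (A i (σ j)) :=
      Finset.sum_congr rfl fun j hj => hBoff i j (Finset.ne_of_mem_erase hj).symm
    rw [h3]
    have h4 := hBon i
    omega
  · have h2 : ∑ i, nm (A i (σ j)) ≤ 2 * |a j| := hc j
    rw [← Finset.add_sum_erase _ _ (Finset.mem_univ j)] at h2 ⊢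
    have h3 : ∑ i ∈ univ.erase j, nm (B i j) = ∑ i ∈ univ.erase j, nm (A i (σ j)) :=
      Finset.sum_congr rfl fun i hi => hBoff i j (Finset.ne_of_mem_erase hi)
    rw [h3]
    have h4 := hBon j
    omega
  · have h1 : c • (1 : Matrix ι ι (MonoidAlgebra ℤ G)) - B = A' := by
      rw [hB]
      abel
    rw [h1]
    let e : X × ι ≃ X × ι :=
      { toFun := fun p => (g p.2 • p.1, p.2)
        invFun := fun p => ((g p.2)⁻¹ • p.1, p.2)
        left_inv := fun p => by simp
        right_inv := fun p => by simp }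
    let f : X × ι ≃ X × κ := Equiv.prodCongr (Equiv.refl X) σ
    have h2 : reg X A' = fun p => ε p.2 • ((reg X A).submatrix e f) p := by
      ext p q
      obtain ⟨x, i⟩ := p
      obtain ⟨y, j⟩ := q
      rw [reg_eq]
      simp only [hA', map_mul, Pi.smul_apply, Matrix.submatrix_apply, smul_eq_mul]
      rw [Matrix.mul_apply, reg_eq, Finset.sum_eq_single (g i • x)]
      · have h3 : pr X (MonoidAlgebra.single (g i)⁻¹ (ε i)) x (g i • x) = ε i := by
          unfold pr
          rw [MonoidAlgebra.lift_single, Matrix.smul_apply]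
          simp [pm]
        rw [h3]
        rfl
      · intro z _ hz
        have h3 : pr X (MonoidAlgebra.single (g i)⁻¹ (ε i)) x z = 0 := by
          unfold pr
          rw [MonoidAlgebra.lift_single, Matrix.smul_apply]
          have h4 : ¬ (g i)⁻¹ • z = x := by
            rintro rfl
            exact hz (by simp)
          simp [pm, h4]
        rw [h3, zero_mul]
      · simp
    have h3 : tc (Cok (reg X A')) = tc (Cok ((reg X A).submatrix e f)) := by
      have h4 := span_sign ((reg X A).submatrix e f) (fun p : X × ι => ε p.2) fun p => hε1 p.2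
      rw [← h2] at h4
      unfold Cok
      rw [h4]
    rw [h3]
    exact Pool.Agent.Q96.TG.tc_iso (Pool.Agent.Q96.TG.cokEquiv e f (reg X A)).toAddEquiv

end Pool.Agent.V8H82.DM
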