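import Pool.Agent.V8H82.DM.Mat

set_option autoImplicit false

/-!
# The Green function of a diagonally dominant integral matrix
-/

namespace Pool.Agent.V8H82.DM

open Finset Matrix

variable {Y : Type} [Fintype Y] [DecidableEq Y]

/-- the matrix `N + s` -/
noncomputable def Ms (N : Matrix Y Y ℤ) (s : ℝ) : Matrix Y Y ℝ :=
  N.map (fun x : ℤ => (x : ℝ)) + s • (1 : Matrix Y Y ℝ)

theorem Ms_mulVec (N : Matrix Y Y ℤ) (s : ℝ) (v : Y → ℝ) (y : Y) :
    (Ms N s *ᵥ v) y = ∑ z, (N y z : ℝ) * v z + s * v y := by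
  unfold Ms
  rw [add_mulVec, smul_mulVec, one_mulVec]
  simp [mulVec, dotProduct]

theorem vecMul_Ms (N : Matrix Y Y ℤ) (s : ℝ) (v : Y → ℝ) (y : Y) :
    (v ᵥ* Ms N s) y = ∑ z, v z * (N z y : ℝ) + s * v y := by
  unfold Ms
  rw [vecMul_add, vecMul_smul, vecMul_one]
  simp [vecMul, dotProduct]

theorem dot_Ms (N : Matrix Y Y ℤ) (s : ℝ) (v : Y → ℝ) :
    v ⬝ᵥ (Ms N s *ᵥ v) = qf N v + s * ∑ z, v z ^ 2 := by
  unfold dotProduct
  simp only [Ms_mulVec, qf, mul_add, Finset.mul_sum, Finset.sum_add_distrib]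
  congr 1
  · refine Finset.sum_congr rfl fun y _ => Finset.sum_congr rfl fun z _ => ?_
    ring
  · refine Finset.sum_congr rfl fun y _ => ?_
    ring

theorem det_ne (N : Matrix Y Y ℤ) (hN : DD N) (s : ℝ) (hs : 0 < s) : (Ms N s).det ≠ 0 := by
  intro h
  obtain ⟨v, hv, hv0⟩ := Matrix.exists_mulVec_eq_zero_iff.2 h
  have h1 := dot_Ms N s v
  rw [hv0, dotProduct_zero] at h1
  have h2 := qf_nonneg N hN v
  have h3 : 0 ≤ ∑ z, v z ^ 2 := Finset.sum_nonneg fun z _ => sq_nonneg _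
  have h4 : ∑ z, v z ^ 2 = 0 := by
    by_contra h5
    have : 0 < s * ∑ z, v z ^ 2 := mul_pos hs (lt_of_le_of_ne h3 (Ne.symm h5))
    linarith
  apply hv
  funext z
  have h5 := (Finset.sum_eq_zero_iff_of_nonneg (fun z _ => sq_nonneg (v z))).1 h4 z (mem_univ z)
  simpa using h5

/-- the Green function -/
noncomputable def Gs (N : Matrix Y Y ℤ) (s : ℝ) : Matrix Y Y ℝ := (Ms N s)⁻¹

theorem Ms_Gs (N : Matrix Y Y ℤ) (hN : DD N) (s : ℝ) (hs : 0 < s) : Ms N s * Gs N s = 1 :=
  Matrix.mul_nonsing_inv _ (isUnit_iff_ne_zero.2 (det_ne N hN s hs))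

theorem Gs_Ms (N : Matrix Y Y ℤ) (hN : DD N) (s : ℝ) (hs : 0 < s) : Gs N s * Ms N s = 1 :=
  Matrix.nonsing_inv_mul _ (isUnit_iff_ne_zero.2 (det_ne N hN s hs))

/-- reachability in the signed double cover -/
def Reach (N : Matrix Y Y ℤ) (y z : Y) (ε : ℤˣ) : Prop := (gr N).Reachable (y, 1) (z, ε)

/-- the class of `y` meets a deficient row or column, or is not balanced -/
def good (N : Matrix Y Y ℤ) (y : Y) : Prop :=
  Reach N y y (-1) ∨ ∃ z ε, Reach N y z ε ∧ 1 ≤ dfc N z

open Classical in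
/-- the class of `y` -/
noncomputable def cls (N : Matrix Y Y ℤ) (y : Y) : Finset Y :=
  Finset.univ.filter fun z => ∃ ε, Reach N y z ε

open Classical in
/-- the signed indicator function of the class -/
noncomputable def uv (N : Matrix Y Y ℤ) (y : Y) (z : Y) : ℤ :=
  if Reach N y z 1 then 1 else if Reach N y z (-1) then -1 else 0

open Classical in
/-- the density of the kernel -/
noncomputable def Pf (N : Matrix Y Y ℤ) (y : Y) : ℝ :=
  if good N y then 0 else 1 / ((cls N y).card : ℝ)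

/-- the flip -/
def flip (N : Matrix Y Y ℤ) : gr N →g gr N where
  toFun p := (p.1, -p.2)
  map_rel' := by
    rintro p q ⟨h1, h2⟩
    refine ⟨h1, ?_⟩
    rcases h2 with ⟨h3, h4⟩ | ⟨h3, h4⟩
    · exact Or.inl ⟨h3, by simp only [h4]⟩
    · exact Or.inr ⟨h3, by simp only [h4]⟩

theorem reach_flip (N : Matrix Y Y ℤ) (y z : Y) (ε δ : ℤˣ) (h : (gr N).Reachable (y, ε) (z, δ)) :
    (gr N).Reachable (y, -ε) (z, -δ) := h.map (flip N)

/-- twisting by a sign -/
theorem reach_mul (N : Matrix Y Y ℤ) (y z : Y) (ε δ τ : ℤˣ)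
    (h : (gr N).Reachable (y, ε) (z, δ)) : (gr N).Reachable (y, τ * ε) (z, τ * δ) := by
  rcases Int.units_eq_one_or τ with h1 | h1
  · rw [h1, one_mul, one_mul]
    exact h
  · have := reach_flip N y z ε δ h
    rw [h1, neg_one_mul, neg_one_mul]
    exact this

theorem Reach.trans' {N : Matrix Y Y ℤ} {y z w : Y} {ε δ : ℤˣ} (h : Reach N y z ε)
    (h' : Reach N z w δ) : Reach N y w (ε * δ) := by
  have h1 := reach_mul N z w 1 δ ε h'
  rw [mul_one] at h1
  exact h.trans h1

theorem Reach.symm' {N : Matrix Y Y ℤ} {y z : Y} {ε : ℤˣ} (h : Reach N y z ε) : Reach N z y ε := by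
  have h1 := reach_mul N z y ε 1 ε h.symm
  rw [mul_one, Int.units_mul_self] at h1
  exact h1

theorem good_of_reach {N : Matrix Y Y ℤ} {y z : Y} {ε : ℤˣ} (h : Reach N y z ε) (hz : good N z) :
    good N y := by
  rcases hz with h1 | ⟨w, δ, h1, h2⟩
  · left
    have h3 := (h.trans' h1).trans' h.symm'
    have h4 : ε * (-1) * ε = -1 := by
      rcases Int.units_eq_one_or ε with h | h <;> rw [h] <;> rfl
    rwa [h4] at h3
  · exact Or.inr ⟨w, ε * δ, h.trans' h1, h2⟩

theorem cls_eq {N : Matrix Y Y ℤ} {y z : Y} {ε : ℤˣ} (h : Reach N y z ε) : cls N z = cls N y := by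
  ext w
  simp only [cls, mem_filter, mem_univ, true_and]
  constructor
  · rintro ⟨δ, hδ⟩
    exact ⟨_, h.trans' hδ⟩
  · rintro ⟨δ, hδ⟩
    exact ⟨_, h.symm'.trans' hδ⟩

theorem Pf_eq {N : Matrix Y Y ℤ} {y z : Y} {ε : ℤˣ} (h : Reach N y z ε) : Pf N z = Pf N y := by
  unfold Pf
  rw [cls_eq h]
  by_cases h1 : good N y
  · rw [if_pos h1, if_pos (good_of_reach h.symm' h1)]
  · rw [if_neg h1, if_neg fun h2 => h1 (good_of_reach h h2)]

theorem reach_self (N : Matrix Y Y ℤ) (y : Y) : Reach N y y 1 := SimpleGraph.Reachable.refl _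

theorem mem_cls_self (N : Matrix Y Y ℤ) (y : Y) : y ∈ cls N y := by
  simp only [cls, mem_filter, mem_univ, true_and]
  exact ⟨1, reach_self N y⟩

theorem card_cls_pos (N : Matrix Y Y ℤ) (y : Y) : 0 < (cls N y).card :=
  Finset.card_pos.2 ⟨y, mem_cls_self N y⟩

theorem Pf_nonneg (N : Matrix Y Y ℤ) (y : Y) : 0 ≤ Pf N y := by
  unfold Pf
  split_ifs
  · exact le_rfl
  · positivity

theorem Pf_le_one (N : Matrix Y Y ℤ) (y : Y) : Pf N y ≤ 1 := by
  unfold Pf
  split_ifs
  · exact zero_le_one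
  · have h : (1 : ℝ) ≤ ((cls N y).card : ℝ) := by exact_mod_cast card_cls_pos N y
    rw [div_le_one (by linarith)]
    exact h

section bad

variable {N : Matrix Y Y ℤ} {y : Y}

theorem not_both (hb : ¬ good N y) {z : Y} (h1 : Reach N y z 1) (h2 : Reach N y z (-1)) : False := by
  apply hb
  left
  have h3 := h1.trans' h2.symm'
  rwa [one_mul] at h3

theorem uv_of_reach (hb : ¬ good N y) {z : Y} {ε : ℤˣ} (h : Reach N y z ε) :
    uv N y z = (ε : ℤ) := by
  unfold uv
  rcases Int.units_eq_one_or ε with h1 | h1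
  · subst h1
    rw [if_pos h]
    rfl
  · subst h1
    rw [if_neg fun h2 => not_both hb h2 h, if_pos h]
    rfl

theorem uv_eq_zero {z : Y} (h : ∀ ε, ¬ Reach N y z ε) : uv N y z = 0 := by
  unfold uv
  rw [if_neg (h 1), if_neg (h (-1))]

theorem uv_self : uv N y y = 1 := by
  unfold uv
  rw [if_pos (reach_self N y)]

theorem dfc_zero (hN : DD N) (hb : ¬ good N y) {z : Y} {ε : ℤˣ} (h : Reach N y z ε) :
    ∑ w, |N z w| = 2 * N z z ∧ ∑ w, |N w z| = 2 * N z z := by
  have h1 : ¬ 1 ≤ dfc N z := fun h2 => hb (Or.inr ⟨z, ε, h, h2⟩)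
  have h2 := hN.row z
  have h3 := hN.col z
  unfold dfc at h1
  constructor <;> omega

/-- adjacent vertices -/
theorem uv_adj (hb : ¬ good N y) {z w : Y} (hzw : w ≠ z) (h : N z w ≠ 0 ∨ N w z ≠ 0) :
    ((∃ ε, Reach N y z ε) ↔ ∃ ε, Reach N y w ε) := by
  have key : ∀ {z w : Y}, w ≠ z → (N z w ≠ 0 ∨ N w z ≠ 0) → (∃ ε, Reach N y z ε) →
      ∃ ε, Reach N y w ε := by
    rintro z w hzw h ⟨ε, hε⟩
    have h1 : (N z w < 0 ∨ N w z < 0) ∨ (0 < N z w ∨ 0 < N w z) := by omega
    rcases h1 with h1 | h1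
    · have h2 : (gr N).Adj (z, ε) (w, ε) := ⟨hzw, Or.inl ⟨h1, rfl⟩⟩
      exact ⟨ε, hε.trans h2.reachable⟩
    · have h2 : (gr N).Adj (z, ε) (w, -ε) := ⟨hzw, Or.inr ⟨h1, rfl⟩⟩
      exact ⟨-ε, hε.trans h2.reachable⟩
  exact ⟨key hzw h, key hzw.symm h.symm⟩

theorem uv_neg (hb : ¬ good N y) {z w : Y} (hzw : w ≠ z) (h : N z w < 0 ∨ N w z < 0) :
    uv N y w = uv N y z := by
  by_cases h1 : ∃ ε, Reach N y z ε
  · obtain ⟨ε, hε⟩ := h1
    have h2 : (gr N).Adj (z, ε) (w, ε) := ⟨hzw, Or.inl ⟨h, rfl⟩⟩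
    rw [uv_of_reach hb hε, uv_of_reach hb (hε.trans h2.reachable)]
  · have h2 := mt (uv_adj hb hzw (by omega)).2 h1
    push Not at h1 h2
    rw [uv_eq_zero h1, uv_eq_zero h2]

theorem uv_pos (hb : ¬ good N y) {z w : Y} (hzw : w ≠ z) (h : 0 < N z w ∨ 0 < N w z) :
    uv N y w = - uv N y z := by
  by_cases h1 : ∃ ε, Reach N y z ε
  · obtain ⟨ε, hε⟩ := h1
    have h2 : (gr N).Adj (z, ε) (w, -ε) := ⟨hzw, Or.inr ⟨h, rfl⟩⟩
    rw [uv_of_reach hb hε, uv_of_reach hb (hε.trans h2.reachable)]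
    simp
  · have h2 := mt (uv_adj hb hzw (by omega)).2 h1
    push Not at h1 h2
    rw [uv_eq_zero h1, uv_eq_zero h2, neg_zero]

theorem N_uv (hN : DD N) (hb : ¬ good N y) (z : Y) : ∑ w, N z w * uv N y w = 0 := by
  have h1 : ∀ w, N z w * uv N y w =
      (if w = z then 2 * N z z * uv N y z else 0) - |N z w| * uv N y z := by
    intro w
    split_ifs with h
    · subst h
      rw [abs_of_nonneg (hN.diag_nonneg w)]
      ring
    · rcases lt_trichotomy (N z w) 0 with h2 | h2 | h2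
      · rw [uv_neg hb h (Or.inl h2), abs_of_neg h2]
        ring
      · rw [h2]
        simp
      · rw [uv_pos hb h (Or.inl h2), abs_of_pos h2]
        ring
  rw [Finset.sum_congr rfl fun w _ => h1 w, Finset.sum_sub_distrib, Finset.sum_ite_eq' univ z,
    if_pos (mem_univ z), ← Finset.sum_mul]
  by_cases h2 : ∃ ε, Reach N y z ε
  · obtain ⟨ε, hε⟩ := h2
    rw [(dfc_zero hN hb hε).1]
    ring
  · push Not at h2
    rw [uv_eq_zero h2]
    ring

theorem uv_N (hN : DD N) (hb : ¬ good N y) (z : Y) : ∑ w, uv N y w * N w z = 0 := by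
  have h1 : ∀ w, uv N y w * N w z =
      (if w = z then 2 * N z z * uv N y z else 0) - |N w z| * uv N y z := by
    intro w
    split_ifs with h
    · subst h
      rw [abs_of_nonneg (hN.diag_nonneg w)]
      ring
    · rcases lt_trichotomy (N w z) 0 with h2 | h2 | h2
      · rw [uv_neg hb h (Or.inr h2), abs_of_neg h2]
        ring
      · rw [h2]
        simp
      · rw [uv_pos hb h (Or.inr h2), abs_of_pos h2]
        ring
  rw [Finset.sum_congr rfl fun w _ => h1 w, Finset.sum_sub_distrib, Finset.sum_ite_eq' univ z,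
    if_pos (mem_univ z), ← Finset.sum_mul]
  by_cases h2 : ∃ ε, Reach N y z ε
  · obtain ⟨ε, hε⟩ := h2
    rw [(dfc_zero hN hb hε).2]
    ring
  · push Not at h2
    rw [uv_eq_zero h2]
    ring

theorem uv_sq (hb : ¬ good N y) : ∑ z, uv N y z ^ 2 = ((cls N y).card : ℤ) := by
  classical
  have h1 : ∀ z, uv N y z ^ 2 = if z ∈ cls N y then 1 else 0 := by
    intro z
    split_ifs with h
    · simp only [cls, mem_filter, mem_univ, true_and] at h
      obtain ⟨ε, hε⟩ := h
      rw [uv_of_reach hb hε]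
      rcases Int.units_eq_one_or ε with h | h <;> simp [h]
    · simp only [cls, mem_filter, mem_univ, true_and, not_exists] at h
      rw [uv_eq_zero h]
      ring
  rw [Finset.sum_congr rfl fun z _ => h1 z]
  simp

end bad

/-- the Green function on the diagonal, for good vertices -/
theorem green_good (N : Matrix Y Y ℤ) (hN : DD N) (y : Y) (hg : good N y) (s : ℝ) (hs : 0 < s)
    (hs1 : s ≤ 1) : 0 ≤ Gs N s y y ∧ Gs N s y y ≤ 8 / Real.sqrt s := by
  set v : Y → ℝ := fun z => Gs N s z y with hv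
  have h1 : Ms N s *ᵥ v = Pi.single y 1 := by
    have h2 := Ms_Gs N hN s hs
    funext z
    have h3 := congrFun (congrFun h2 z) y
    rw [Matrix.mul_apply] at h3
    simp only [mulVec, dotProduct, hv]
    rw [h3, Matrix.one_apply, Pi.single_apply]
  have h2 := dot_Ms N s v
  rw [h1, dotProduct_single, mul_one] at h2
  have h3 : Real.sqrt s / 8 * v y ^ 2 ≤ qf N v + s * ∑ z, v z ^ 2 := by
    rcases hg with h | ⟨z, ε, h, h'⟩
    · exact path_lemma N hN v y y (-1) h (Or.inr (by push_cast; nlinarith [sq_nonneg (v y)])) s hs hs1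
    · exact path_lemma N hN v y z ε h (Or.inl h') s hs hs1
  have h4 : 0 ≤ v y := by
    rw [h2]
    have := qf_nonneg N hN v
    have h5 : 0 ≤ s * ∑ z, v z ^ 2 := mul_nonneg hs.le (Finset.sum_nonneg fun z _ => sq_nonneg _)
    linarith
  refine ⟨h4, ?_⟩
  rw [← h2] at h3
  have h5 : 0 < Real.sqrt s := Real.sqrt_pos.2 hs
  change v y ≤ 8 / Real.sqrt s
  rw [le_div_iff₀ h5]
  by_contra h6
  push Not at h6
  have h7 : 0 < v y := by
    rcases h4.lt_or_eq with h | h
    · exact h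
    · rw [← h] at h6
      linarith
  nlinarith

/-- the Green function on the diagonal, for bad vertices -/
theorem green_bad (N : Matrix Y Y ℤ) (hN : DD N) (y : Y) (hb : ¬ good N y) (s : ℝ) (hs : 0 < s)
    (hs1 : s ≤ 1) : 1 / ((cls N y).card : ℝ) / s ≤ Gs N s y y ∧
      Gs N s y y ≤ 1 / ((cls N y).card : ℝ) / s + 8 / Real.sqrt s := by
  set n : ℝ := ((cls N y).card : ℝ) with hn
  have hn0 : 0 < n := by
    have := card_cls_pos N y
    rw [hn]
    exact_mod_cast this
  set u : Y → ℝ := fun z => (uv N y z : ℝ) with hu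
  have hu1 : Ms N s *ᵥ u = s • u := by
    funext z
    rw [Ms_mulVec]
    have h1 := N_uv hN hb z
    have h2 : ∑ w, (N z w : ℝ) * u w = 0 := by
      simp only [hu]
      exact_mod_cast h1
    rw [h2, zero_add]
    rfl
  have hu2 : u ᵥ* Ms N s = s • u := by
    funext z
    rw [vecMul_Ms]
    have h1 := uv_N hN hb z
    have h2 : ∑ w, u w * (N w z : ℝ) = 0 := by
      simp only [hu]
      exact_mod_cast h1
    rw [h2, zero_add]
    rfl
  have hu3 : Gs N s *ᵥ u = (1 / s) • u := by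
    have h1 : Gs N s *ᵥ (Ms N s *ᵥ u) = u := by
      rw [mulVec_mulVec, Gs_Ms N hN s hs, one_mulVec]
    rw [hu1, mulVec_smul] at h1
    rw [← h1, smul_smul, one_div, inv_mul_cancel₀ hs.ne', one_smul, h1]
  have hu4 : u ᵥ* Gs N s = (1 / s) • u := by
    have h1 : (u ᵥ* Ms N s) ᵥ* Gs N s = u := by
      rw [vecMul_vecMul, Ms_Gs N hN s hs, vecMul_one]
    rw [hu2, smul_vecMul] at h1
    rw [← h1, smul_smul, one_div, inv_mul_cancel₀ hs.ne', one_smul, h1]
  have hus : u ⬝ᵥ u = n := by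
    have h1 := uv_sq hb
    simp only [dotProduct, hu, hn]
    have h2 : ∀ z, (uv N y z : ℝ) * (uv N y z : ℝ) = ((uv N y z ^ 2 : ℤ) : ℝ) := by
      intro z
      push_cast
      ring
    rw [Finset.sum_congr rfl fun z _ => h2 z]
    exact_mod_cast h1
  have huy : u y = 1 := by
    simp [hu, uv_self]
  set w : Y → ℝ := Pi.single y 1 - (1 / n) • u with hw
  set v : Y → ℝ := Gs N s *ᵥ w with hv
  have h1 : Ms N s *ᵥ v = w := by
    rw [hv, mulVec_mulVec, Ms_Gs N hN s hs, one_mulVec]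
  have h2 : u ⬝ᵥ v = 0 := by
    rw [hv, dotProduct_mulVec, hu4, smul_dotProduct, hw, dotProduct_sub, dotProduct_single,
      dotProduct_smul, hus, huy, smul_eq_mul, smul_eq_mul, one_div_mul_cancel hn0.ne', mul_one,
      sub_self, mul_zero]
  have h3 : v y = qf N v + s * ∑ z, v z ^ 2 := by
    rw [← dot_Ms, h1, hw, dotProduct_sub, dotProduct_smul, dotProduct_single, dotProduct_comm v u, h2]
    simp
  have h4 : Gs N s y y = 1 / n / s + v y := by
    have h5 : Gs N s *ᵥ (Pi.single y 1) = (1 / n / s) • u + v := by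
      have h6 : (Pi.single y 1 : Y → ℝ) = (1 / n) • u + w := by rw [hw]; abel
      rw [h6, mulVec_add, mulVec_smul, hu3, smul_smul]
      congr 2
      field_simp
    have h6 := congrFun h5 y
    rw [mulVec_single_one] at h6
    simp only [Pi.add_apply, Pi.smul_apply, huy, smul_eq_mul, mul_one, Matrix.col_apply] at h6
    exact h6
  have h5 : 0 ≤ v y := by
    rw [h3]
    have := qf_nonneg N hN v
    have h5 : 0 ≤ s * ∑ z, v z ^ 2 := mul_nonneg hs.le (Finset.sum_nonneg fun z _ => sq_nonneg _)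
    linarith
  have h6 : Real.sqrt s / 8 * v y ^ 2 ≤ v y := by
    obtain ⟨z, ε, hz, hz'⟩ : ∃ z ε, Reach N y z ε ∧ ((ε : ℤ) : ℝ) * v z * v y ≤ 0 := by
      by_contra hcon
      push Not at hcon
      have h7 : 0 < ∑ z, u z * v z * v y := by
        refine Finset.sum_pos' (fun z _ => ?_) ⟨y, mem_univ y, ?_⟩
        · by_cases h8 : ∃ ε, Reach N y z ε
          · obtain ⟨ε, hε⟩ := h8
            have h9 := hcon z ε hε
            simp only [hu]
            rw [uv_of_reach hb hε]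
            exact h9.le
          · push Not at h8
            simp only [hu]
            rw [uv_eq_zero h8]
            simp
        · have h9 := hcon y 1 (reach_self N y)
          rw [huy]
          simpa using h9
      rw [← Finset.sum_mul] at h7
      have h8 : ∑ z, u z * v z = 0 := h2
      rw [h8, zero_mul] at h7
      exact lt_irrefl _ h7
    have h7 := path_lemma N hN v y z ε hz (Or.inr hz') s hs hs1
    linarith
  have h7 : v y ≤ 8 / Real.sqrt s := by
    have h8 : 0 < Real.sqrt s := Real.sqrt_pos.2 hs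
    rw [le_div_iff₀ h8]
    by_contra h9
    push Not at h9
    have h10 : 0 < v y := by
      rcases h5.lt_or_eq with h | h
      · exact h
      · rw [← h] at h9
        linarith
    nlinarith
  rw [h4]
  constructor <;> linarith

/-- **the Green function on the diagonal** -/
theorem green (N : Matrix Y Y ℤ) (hN : DD N) (y : Y) (s : ℝ) (hs : 0 < s)
    (hs1 : s ≤ 1) : Pf N y / s ≤ Gs N s y y ∧ Gs N s y y ≤ Pf N y / s + 8 / Real.sqrt s := by
  unfold Pf
  split_ifs with h
  · have := green_good N hN y h s hs hs1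
    simpa using this
  · exact green_bad N hN y h s hs hs1

end Pool.Agent.V8H82.DM
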