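import Pool.Agent.V8H82.DM.Loc

set_option autoImplicit false

/-!
# Limits along sequences of finite `G`-sets
-/

namespace Pool.Agent.V8H82.DM

open Finset Matrix Filter Topology
open Pool.Agent.Q181.TG (reg tc Cok Far)

variable {G : Type} [Group G]

theorem conv_of_approx (a : ℕ → ℝ) (h : ∀ ε : ℝ, 0 < ε → ∃ b : ℕ → ℝ, (∃ l, Tendsto b atTop (𝓝 l)) ∧
    ∀ n, |a n - b n| ≤ ε) : ∃ l, Tendsto a atTop (𝓝 l) := by
  refine cauchySeq_tendsto_of_complete ?_
  rw [Metric.cauchySeq_iff']
  intro ε hε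
  obtain ⟨b, ⟨l, hl⟩, hb⟩ := h (ε / 5) (by linarith)
  obtain ⟨N, hN⟩ := (Metric.tendsto_atTop.1 hl) (ε / 5) (by linarith)
  refine ⟨N, fun n hn => ?_⟩
  have h1 := hN n hn
  have h2 := hN N le_rfl
  have h3 := hb n
  have h4 := hb N
  rw [Real.dist_eq] at h1 h2 ⊢
  rw [abs_lt] at h1 h2 ⊢
  rw [abs_le] at h3 h4
  constructor <;> linarith [h1.1, h1.2, h2.1, h2.2, h3.1, h3.2, h4.1, h4.2]

theorem lim_le {a b : ℕ → ℝ} {α β ε : ℝ} (ha : Tendsto a atTop (𝓝 α)) (hb : Tendsto b atTop (𝓝 β))
    (h : ∀ n, |a n - b n| ≤ ε) : |α - β| ≤ ε :=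
  le_of_tendsto' (ha.sub hb).abs h

/-- the average -/
noncomputable def av (f : PF G) (X : Type) [Fintype X] [MulAction G X] : ℝ :=
  (∑ x : X, f X x) / Fintype.card X

theorem av_sub_le (f g : PF G) (ε : ℝ) (X : Type) [Fintype X] [Nonempty X] [MulAction G X]
    (h : ∀ x : X, |f X x - g X x| ≤ ε) : |av f X - av g X| ≤ ε := by
  unfold av
  have hc : (0 : ℝ) < Fintype.card X := by exact_mod_cast Fintype.card_pos
  rw [← sub_div, abs_div, abs_of_pos hc, div_le_iff₀ hc, ← Finset.sum_sub_distrib]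
  refine (Finset.abs_sum_le_sum_abs _ _).trans ?_
  have h1 : ∑ x : X, |f X x - g X x| ≤ ∑ x : X, ε := Finset.sum_le_sum fun x _ => h x
  rw [Finset.sum_const, nsmul_eq_mul, Finset.card_univ] at h1
  linarith

/-- the local function with the values `Φ` -/
noncomputable def lf (S : Finset G) (Φ : Finset G → ℝ) : PF G := fun X _ _ x => Φ (pat S x)

theorem av_lf (S : Finset G) (Φ : Finset G → ℝ) (X : Type) [Fintype X] [MulAction G X] :
    av (lf S Φ) X = ∑ T ∈ S.powerset, Φ T * ((Nat.card {x : X // pat S x = T} : ℝ) / Nat.card X) := by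
  classical
  unfold av lf
  have h1 : ∑ x : X, Φ (pat S x) =
      ∑ T ∈ S.powerset, ∑ x ∈ univ.filter (fun x : X => pat S x = T), Φ (pat S x) := by
    rw [Finset.sum_fiberwise_of_maps_to]
    intro x _
    rw [Finset.mem_powerset]
    exact Finset.filter_subset _ _
  rw [h1, Finset.sum_div]
  refine Finset.sum_congr rfl fun T _ => ?_
  have h2 : ∑ x ∈ univ.filter (fun x : X => pat S x = T), Φ (pat S x) =
      ∑ x ∈ univ.filter (fun x : X => pat S x = T), Φ T := by
    refine Finset.sum_congr rfl fun x hx => ?_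
    rw [(Finset.mem_filter.1 hx).2]
  rw [h2, Finset.sum_const, nsmul_eq_mul, Nat.card_eq_fintype_card, Nat.card_eq_fintype_card,
    Fintype.card_subtype]
  ring

/-- Benjamini-Schramm convergence of a sequence of `G`-sets: for all finite sets `S`, `T` of elements of
`G` the proportion of the points which are fixed exactly by those elements of `S` which are in `T`
converges -/
def BSConv (G : Type) [Group G] (X : ℕ → Type) [∀ n, MulAction G (X n)] : Prop :=
  ∀ S T : Finset G, ∃ r : ℝ,
    Tendsto (fun n => (Nat.card {x : X n // ∀ g ∈ S, g • x = x ↔ g ∈ T} : ℝ) / Nat.card (X n))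
      atTop (𝓝 r)

theorem pat_eq_iff {X : Type} [MulAction G X] (S T : Finset G) (hT : T ⊆ S) (x : X) :
    pat S x = T ↔ ∀ g ∈ S, (g • x = x ↔ g ∈ T) := by
  constructor
  · rintro rfl g hg
    simp only [pat, mem_filter]
    exact ⟨fun h => ⟨hg, h⟩, fun h => h.2⟩
  · intro h
    ext g
    simp only [pat, mem_filter]
    exact ⟨fun h1 => (h g h1.1).1 h1.2, fun h1 => ⟨hT h1, (h g (hT h1)).2 h1⟩⟩

theorem av_lf_BS (X : ℕ → Type) [∀ n, Fintype (X n)] [∀ n, MulAction G (X n)] (hX : BSConv G X)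
    (S : Finset G) (Φ : Finset G → ℝ) : ∃ r, Tendsto (fun n => av (lf S Φ) (X n)) atTop (𝓝 r) := by
  choose r hr using hX S
  refine ⟨∑ T ∈ S.powerset, Φ T * r T, ?_⟩
  simp only [av_lf]
  refine tendsto_finsetSum _ fun T hT => ?_
  refine Tendsto.const_mul _ ?_
  refine (hr T).congr fun n => ?_
  congr 2
  refine Nat.card_congr (Equiv.subtypeEquivRight fun x => ?_)
  exact (pat_eq_iff S T (Finset.mem_powerset.1 hT) x).symm

theorem av_BS (X : ℕ → Type) [∀ n, Fintype (X n)] [∀ n, Nonempty (X n)] [∀ n, MulAction G (X n)]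
    (hX : BSConv G X) (f : PF G) (hf : ALoc f) : ∃ r, Tendsto (fun n => av f (X n)) atTop (𝓝 r) := by
  refine conv_of_approx _ fun ε hε => ?_
  obtain ⟨S, Φ, h⟩ := hf ε hε
  exact ⟨fun n => av (lf S Φ) (X n), av_lf_BS X hX S Φ, fun n =>
    av_sub_le f (lf S Φ) ε (X n) fun x => h (X n) x⟩

section far

variable (X : ℕ → Type) [∀ n, Fintype (X n)] [∀ n, Nonempty (X n)] [∀ n, MulAction G (X n)]

open Classical in
theorem av_lf_far (hX : Far G X) (S : Finset G) (Φ : Finset G → ℝ) :
    Tendsto (fun n => av (lf S Φ) (X n)) atTop (𝓝 (Φ (S.filter fun g => g = 1))) := by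
  set S1 := S.filter fun g => g = 1 with hS1
  set C : ℝ := ∑ T ∈ S.powerset, |Φ T - Φ S1| with hC
  have hC0 : 0 ≤ C := Finset.sum_nonneg fun T _ => abs_nonneg _
  have h1 : ∀ n, |av (lf S Φ) (X n) - Φ S1| ≤
      C * ∑ g ∈ S.filter (fun g => g ≠ 1),
        (Nat.card {x : X n // g • x = x} : ℝ) / Nat.card (X n) := by
    intro n
    have hc : (0 : ℝ) < Fintype.card (X n) := by exact_mod_cast Fintype.card_pos
    have h2 : av (lf S Φ) (X n) - Φ S1 = (∑ x : X n, (Φ (pat S x) - Φ S1)) / Fintype.card (X n) := by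
      unfold av lf
      rw [Finset.sum_sub_distrib, Finset.sum_const, nsmul_eq_mul, Finset.card_univ]
      field_simp
    rw [h2, abs_div, abs_of_pos hc, div_le_iff₀ hc]
    have h3 : C * (∑ g ∈ S.filter (fun g => g ≠ 1),
        (Nat.card {x : X n // g • x = x} : ℝ) / Nat.card (X n)) * Fintype.card (X n) =
        ∑ x : X n, C * ∑ g ∈ S.filter (fun g => g ≠ 1), (if g • x = x then (1 : ℝ) else 0) := by
      rw [← Finset.mul_sum, Finset.sum_comm, mul_assoc]
      congr 1
      rw [Finset.sum_mul]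
      refine Finset.sum_congr rfl fun g _ => ?_
      rw [Nat.card_eq_fintype_card, Nat.card_eq_fintype_card, div_mul_cancel₀ _ hc.ne',
        Fintype.card_subtype, Finset.sum_boole]
    rw [h3]
    refine (Finset.abs_sum_le_sum_abs _ _).trans (Finset.sum_le_sum fun x _ => ?_)
    by_cases h4 : pat S x = S1
    · rw [h4, sub_self, abs_zero]
      refine mul_nonneg hC0 (Finset.sum_nonneg fun g _ => ?_)
      split_ifs <;> norm_num
    · have h5 : |Φ (pat S x) - Φ S1| ≤ C :=
        Finset.single_le_sum (f := fun T => |Φ T - Φ S1|) (fun T _ => abs_nonneg _)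
          (Finset.mem_powerset.2 (Finset.filter_subset _ _))
      have h6 : 1 ≤ ∑ g ∈ S.filter (fun g => g ≠ 1), (if g • x = x then (1 : ℝ) else 0) := by
        obtain ⟨g, hg, hg1, hgx⟩ : ∃ g ∈ S, g ≠ 1 ∧ g • x = x := by
          by_contra hcon
          push Not at hcon
          apply h4
          rw [hS1]
          unfold pat
          refine Finset.filter_congr fun g hg => ?_
          constructor
          · intro h7
            by_contra h8
            exact hcon g hg h8 h7
          · rintro rfl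
            exact one_smul G x
        have h7 : (if g • x = x then (1 : ℝ) else 0) ≤
            ∑ g ∈ S.filter (fun g => g ≠ 1), (if g • x = x then (1 : ℝ) else 0) :=
          Finset.single_le_sum (f := fun g => if g • x = x then (1 : ℝ) else 0)
            (fun g _ => by split_ifs <;> norm_num) (Finset.mem_filter.2 ⟨hg, hg1⟩)
        rw [if_pos hgx] at h7
        exact h7
      calc |Φ (pat S x) - Φ S1| ≤ C * 1 := by rw [mul_one]; exact h5
        _ ≤ _ := mul_le_mul_of_nonneg_left h6 hC0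
  have h2 : Tendsto (fun n => C * ∑ g ∈ S.filter (fun g => g ≠ 1),
      (Nat.card {x : X n // g • x = x} : ℝ) / Nat.card (X n)) atTop (𝓝 0) := by
    have h3 : Tendsto (fun n => ∑ g ∈ S.filter (fun g => g ≠ 1),
        (Nat.card {x : X n // g • x = x} : ℝ) / Nat.card (X n)) atTop
        (𝓝 (∑ g ∈ S.filter (fun g => g ≠ 1), (0 : ℝ))) :=
      tendsto_finsetSum _ fun g hg => hX g (Finset.mem_filter.1 hg).2
    rw [Finset.sum_const_zero] at h3
    simpa using h3.const_mul C
  rw [tendsto_iff_dist_tendsto_zero]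
  refine squeeze_zero (fun n => dist_nonneg) (fun n => ?_) h2
  rw [Real.dist_eq]
  exact h1 n

theorem av_far (hX : Far G X) (f : PF G) (hf : ALoc f) :
    ∃ r, Tendsto (fun n => av f (X n)) atTop (𝓝 r) := by
  refine conv_of_approx _ fun ε hε => ?_
  obtain ⟨S, Φ, h⟩ := hf ε hε
  exact ⟨fun n => av (lf S Φ) (X n), ⟨_, av_lf_far X hX S Φ⟩, fun n =>
    av_sub_le f (lf S Φ) ε (X n) fun x => h (X n) x⟩

theorem av_comp (hX : Far G X) (f : PF G) (hf : ALoc f) (h : ℝ → ℝ) (hh : UniformContinuous h)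
    (a : ℝ) (ha : Tendsto (fun n => av f (X n)) atTop (𝓝 a)) :
    Tendsto (fun n => av (G := G) (fun X _ _ x => h (f X x)) (X n)) atTop (𝓝 (h a)) := by
  classical
  obtain ⟨b, hb⟩ := av_far X hX _ (hf.comp h hh)
  have key : ∀ ε : ℝ, 0 < ε → |b - h a| ≤ 2 * ε := by
    intro ε hε
    obtain ⟨δ, hδ, h1⟩ := Metric.uniformContinuous_iff.1 hh ε hε
    obtain ⟨S, Φ, h2⟩ := hf (δ / 2) (by linarith)
    have h3 := av_lf_far X hX S Φ
    have h4 := av_lf_far X hX S (fun T => h (Φ T))
    have h5 : |a - Φ (S.filter fun g => g = 1)| ≤ δ / 2 :=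
      lim_le ha h3 fun n => av_sub_le f (lf S Φ) _ (X n) fun x => h2 (X n) x
    have h6 : |b - h (Φ (S.filter fun g => g = 1))| ≤ ε := by
      refine lim_le hb h4 fun n => av_sub_le (G := G) (fun X _ _ x => h (f X x)) (lf S fun T => h (Φ T)) _
        (X n) fun x => ?_
      have h7 := h1 (a := f (X n) x) (b := Φ (pat S x)) (by
        rw [Real.dist_eq]
        have := h2 (X n) x
        linarith)
      rw [Real.dist_eq] at h7
      exact h7.le
    have h7 := h1 (a := Φ (S.filter fun g => g = 1)) (b := a) (by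
      rw [Real.dist_eq, abs_sub_comm]
      linarith)
    rw [Real.dist_eq] at h7
    have h8 : b - h a = (b - h (Φ (S.filter fun g => g = 1))) +
      (h (Φ (S.filter fun g => g = 1)) - h a) := by ring
    rw [h8]
    exact (abs_add_le _ _).trans (by linarith)
  have h9 : b = h a := by
    by_contra hne
    have h10 : 0 < |b - h a| := abs_pos.2 (sub_ne_zero.2 hne)
    have := key (|b - h a| / 4) (by linarith)
    linarith
  rwa [← h9]

end far

end Pool.Agent.V8H82.DM
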