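import Pool.Agent.V8H82.DM.Reg

set_option autoImplicit false

/-!
# Local functions on the points of finite `G`-sets
-/

namespace Pool.Agent.V8H82.DM

open Finset Matrix Filter Topology
open Pool.Agent.Q181.TG (reg tc Cok Far)

variable {G : Type} [Group G]

/-- functions on the points of finite `G`-sets -/
abbrev PF (G : Type) [Group G] : Type 1 := ∀ (X : Type) [Fintype X] [MulAction G X], X → ℝ

open Classical in
/-- the elements of `S` which fix `x` -/
noncomputable def pat {X : Type} [MulAction G X] (S : Finset G) (x : X) : Finset G :=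
  S.filter fun g => g • x = x

/-- `f` is approximated uniformly by functions which depend only on the elements of a finite set which
fix the point -/
def ALoc (f : PF G) : Prop := ∀ ε : ℝ, 0 < ε → ∃ (S : Finset G) (Φ : Finset G → ℝ),
  ∀ (X : Type) [Fintype X] [MulAction G X] (x : X), |f X x - Φ (pat S x)| ≤ ε

theorem pat_sub {X : Type} [MulAction G X] [DecidableEq G] (S T : Finset G) (h : S ⊆ T) (x : X) :
    pat S x = pat T x ∩ S := by
  ext g
  simp only [pat, mem_filter, mem_inter]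
  constructor
  · rintro ⟨h1, h2⟩
    exact ⟨⟨h h1, h2⟩, h1⟩
  · rintro ⟨⟨_, h2⟩, h3⟩
    exact ⟨h3, h2⟩

theorem ALoc.of_local (f : PF G) (S : Finset G) (Φ : Finset G → ℝ)
    (h : ∀ (X : Type) [Fintype X] [MulAction G X] (x : X), f X x = Φ (pat S x)) : ALoc f :=
  fun ε hε => ⟨S, Φ, fun X _ _ x => by rw [h X x, sub_self, abs_zero]; exact hε.le⟩

theorem ALoc.const (a : ℝ) : ALoc (G := G) (fun X _ _ _ => a) :=
  ALoc.of_local _ ∅ (fun _ => a) fun X _ _ x => rfl

theorem ALoc.add {f g : PF G} (hf : ALoc f) (hg : ALoc g) :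
    ALoc (G := G) (fun X _ _ x => f X x + g X x) := by
  classical
  intro ε hε
  obtain ⟨S, Φ, h1⟩ := hf (ε / 2) (by linarith)
  obtain ⟨T, Ψ, h2⟩ := hg (ε / 2) (by linarith)
  refine ⟨S ∪ T, fun P => Φ (P ∩ S) + Ψ (P ∩ T), fun X _ _ x => ?_⟩
  change |f X x + g X x - (Φ (pat (S ∪ T) x ∩ S) + Ψ (pat (S ∪ T) x ∩ T))| ≤ ε
  rw [← pat_sub S (S ∪ T) subset_union_left x, ← pat_sub T (S ∪ T) subset_union_right x]
  have h3 := h1 X x
  have h4 := h2 X x
  have h5 : f X x + g X x - (Φ (pat S x) + Ψ (pat T x)) =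
    (f X x - Φ (pat S x)) + (g X x - Ψ (pat T x)) := by ring
  rw [h5]
  exact (abs_add_le _ _).trans (by linarith)

theorem ALoc.smul {f : PF G} (hf : ALoc f) (a : ℝ) : ALoc (G := G) (fun X _ _ x => a * f X x) := by
  intro ε hε
  obtain ⟨S, Φ, h1⟩ := hf (ε / (|a| + 1)) (by positivity)
  refine ⟨S, fun P => a * Φ P, fun X _ _ x => ?_⟩
  have h2 := h1 X x
  rw [← mul_sub, abs_mul]
  calc |a| * |f X x - Φ (pat S x)| ≤ |a| * (ε / (|a| + 1)) :=
        mul_le_mul_of_nonneg_left h2 (abs_nonneg a)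
    _ ≤ (|a| + 1) * (ε / (|a| + 1)) := by
        refine mul_le_mul_of_nonneg_right (by linarith) (by positivity)
    _ = ε := by field_simp

theorem ALoc.sum {J : Type} (s : Finset J) (f : J → PF G) (hf : ∀ j ∈ s, ALoc (f j)) :
    ALoc (G := G) (fun X _ _ x => ∑ j ∈ s, f j X x) := by
  classical
  induction s using Finset.induction_on with
  | empty => simpa using ALoc.const (G := G) 0
  | insert j s hj ih =>
    have h1 := (hf j (mem_insert_self j s)).add (ih fun i hi => hf i (mem_insert_of_mem hi))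
    refine cast ?_ h1
    congr 1
    funext X _ _ x
    rw [Finset.sum_insert hj]

theorem ALoc.comp {f : PF G} (hf : ALoc f) (h : ℝ → ℝ) (hh : UniformContinuous h) :
    ALoc (G := G) (fun X _ _ x => h (f X x)) := by
  intro ε hε
  obtain ⟨δ, hδ, h1⟩ := Metric.uniformContinuous_iff.1 hh ε hε
  obtain ⟨S, Φ, h2⟩ := hf (δ / 2) (by linarith)
  refine ⟨S, fun P => h (Φ P), fun X _ _ x => ?_⟩
  have h3 := h2 X x
  have h4 := h1 (a := f X x) (b := Φ (pat S x)) (by rw [Real.dist_eq]; linarith)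
  rw [Real.dist_eq] at h4
  exact h4.le

theorem ALoc.of_approx {f : PF G} (h : ∀ ε : ℝ, 0 < ε → ∃ g : PF G, ALoc g ∧
    ∀ (X : Type) [Fintype X] [MulAction G X] (x : X), |f X x - g X x| ≤ ε) : ALoc f := by
  intro ε hε
  obtain ⟨g, hg, h1⟩ := h (ε / 2) (by linarith)
  obtain ⟨S, Φ, h2⟩ := hg (ε / 2) (by linarith)
  refine ⟨S, Φ, fun X _ _ x => ?_⟩
  have h3 := h1 X x
  have h4 := h2 X x
  have h5 : f X x - Φ (pat S x) = (f X x - g X x) + (g X x - Φ (pat S x)) := by ring
  rw [h5]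
  exact (abs_add_le _ _).trans (by linarith)

/-- the entropy function, cut off -/
noncomputable def eta (x : ℝ) : ℝ := Real.negMulLog (max 0 (min 1 x))

theorem eta_eq (x : ℝ) (h0 : 0 ≤ x) (h1 : x ≤ 1) : eta x = Real.negMulLog x := by
  unfold eta
  rw [min_eq_right h1, max_eq_right h0]

theorem eta_uc : UniformContinuous eta := by
  have h1 : UniformContinuousOn Real.negMulLog (Set.Icc 0 1) :=
    isCompact_Icc.uniformContinuousOn_of_continuous Real.continuous_negMulLog.continuousOn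
  rw [Metric.uniformContinuousOn_iff] at h1
  rw [Metric.uniformContinuous_iff]
  intro ε hε
  obtain ⟨δ, hδ, h2⟩ := h1 ε hε
  refine ⟨δ, hδ, fun {a b} hab => h2 _ ⟨?_, ?_⟩ _ ⟨?_, ?_⟩ ?_⟩
  · exact le_max_left _ _
  · exact max_le zero_le_one (min_le_left _ _)
  · exact le_max_left _ _
  · exact max_le zero_le_one (min_le_left _ _)
  · refine lt_of_le_of_lt ?_ hab
    rw [Real.dist_eq, Real.dist_eq]
    calc |max 0 (min 1 a) - max 0 (min 1 b)| ≤ |min 1 a - min 1 b| := by
          have := abs_max_sub_max_le_max 0 (min 1 a) 0 (min 1 b)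
          simpa using this
      _ ≤ |a - b| := by
          have := abs_min_sub_min_le_max 1 a 1 b
          simpa using this

section dens

variable {ι : Type} [Fintype ι] [DecidableEq ι] (B : Matrix ι ι (MonoidAlgebra ℤ G)) (c : ℕ)

open Classical in
/-- the diagonal entries of the powers -/
noncomputable def bk (k : ℕ) (i : ι) : PF G := fun X _ _ x => ((reg X B ^ k) (x, i) (x, i) : ℝ)

/-- the value of a power at the free points -/
noncomputable def bf (k : ℕ) (i : ι) : ℝ := (((B ^ k) i i).coeff 1 : ℤ)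

theorem bk_eq (k : ℕ) (i : ι) (X : Type) [Fintype X] [MulAction G X] (x : X) :
    bk B k i X x = ∑ h ∈ pat ((B ^ k) i i).coeff.support x, (((B ^ k) i i).coeff h : ℝ) := by
  classical
  unfold bk
  rw [← reg_pow, reg_eq, pr_apply]
  simp only [pat]
  rw [Finset.sum_filter]
  push_cast
  refine Finset.sum_congr rfl fun h _ => ?_
  split_ifs <;> simp

theorem bk_loc (k : ℕ) (i : ι) : ALoc (bk B k i) :=
  ALoc.of_local _ ((B ^ k) i i).coeff.support
    (fun P => ∑ h ∈ P, (((B ^ k) i i).coeff h : ℝ)) fun X _ _ x => bk_eq B k i X x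

open Classical in
/-- the density of the kernel -/
noncomputable def pp (i : ι) : PF G := fun X _ _ x => Pf (cB (reg X B) c) (x, i)

/-- the truncated approximation of the density of the kernel -/
noncomputable def pt (s : ℝ) (K : ℕ) (i : ι) : PF G := fun X _ _ x =>
  s * ∑ k ∈ range K, ((c : ℝ) + s)⁻¹ ^ (k + 1) * bk B k i X x

theorem pt_loc (s : ℝ) (K : ℕ) (i : ι) : ALoc (pt B c s K i) :=
  (ALoc.sum (range K) (fun k => fun X _ _ x => ((c : ℝ) + s)⁻¹ ^ (k + 1) * bk B k i X x)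
    fun k _ => (bk_loc B k i).smul _).smul s

variable {B c}

theorem pp_pt (h1 : ∀ i, ∑ j, nm (B i j) ≤ c) (h2 : ∀ j, ∑ i, nm (B i j) ≤ c) (s : ℝ) (hs : 0 < s)
    (hs1 : s ≤ 1) (K : ℕ) (i : ι) (X : Type) [Fintype X] [MulAction G X] (x : X) :
    |pp B c i X x - pt B c s K i X x| ≤ 8 * Real.sqrt s + ((c : ℝ) / (c + s)) ^ K := by
  classical
  have h3 := reg_row X B c h1
  have h4 := reg_col X B c h2
  have h5 := green (cB (reg X B) c) (cB_DD (reg X B) c h3 h4) (x, i) s hs hs1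
  have h6 := G_TK (reg X B) c h3 h4 s hs K (x, i)
  have h7 : pt B c s K i X x = s * TK (reg X B) c s K (x, i) := rfl
  rw [h7]
  have hsq : 0 < Real.sqrt s := Real.sqrt_pos.2 hs
  have h8 : s * (8 / Real.sqrt s) = 8 * Real.sqrt s := by
    have : s = Real.sqrt s * Real.sqrt s := (Real.mul_self_sqrt hs.le).symm
    rw [this, Real.sqrt_mul_self hsq.le]
    field_simp
  have h9 : pp B c i X x = Pf (cB (reg X B) c) (x, i) := rfl
  rw [← h9] at h5
  have h10 := mul_le_mul_of_nonneg_left h5.1 hs.le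
  have h11 := mul_le_mul_of_nonneg_left h5.2 hs.le
  rw [mul_add, h8] at h11
  rw [mul_div_cancel₀ _ hs.ne'] at h10 h11
  have h12 : |s * Gs (cB (reg X B) c) s (x, i) (x, i) - s * TK (reg X B) c s K (x, i)| ≤
      ((c : ℝ) / (c + s)) ^ K := by
    rw [← mul_sub, abs_mul, abs_of_pos hs]
    have := mul_le_mul_of_nonneg_left h6 hs.le
    rwa [← mul_assoc, mul_one_div_cancel hs.ne', one_mul] at this
  have h13 := abs_le.1 h12
  rw [abs_le]
  constructor <;> linarith [h13.1, h13.2]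

theorem pp_nonneg (i : ι) (X : Type) [Fintype X] [MulAction G X] (x : X) : 0 ≤ pp B c i X x := by
  classical
  unfold pp
  exact Pf_nonneg _ _

theorem pp_le_one (i : ι) (X : Type) [Fintype X] [MulAction G X] (x : X) : pp B c i X x ≤ 1 := by
  classical
  unfold pp
  exact Pf_le_one _ _

theorem exists_small (c : ℕ) (ε : ℝ) (hε : 0 < ε) : ∃ s : ℝ, 0 < s ∧ s ≤ 1 ∧ 
    16 * Real.sqrt s ≤ ε := by
  refine ⟨min 1 ((ε / 16) ^ 2), lt_min one_pos (by positivity), min_le_left _ _, ?_⟩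
  have h1 : Real.sqrt (min 1 ((ε / 16) ^ 2)) ≤ Real.sqrt ((ε / 16) ^ 2) :=
    Real.sqrt_le_sqrt (min_le_right _ _)
  rw [Real.sqrt_sq (by positivity)] at h1
  linarith

theorem pow_tendsto (c : ℕ) (s : ℝ) (hs : 0 < s) :
    Tendsto (fun K : ℕ => ((c : ℝ) / (c + s)) ^ K) atTop (𝓝 0) := by
  have hc : (0 : ℝ) ≤ c := Nat.cast_nonneg c
  refine tendsto_pow_atTop_nhds_zero_of_lt_one (by positivity) ?_
  rw [div_lt_one (by linarith)]
  linarith

theorem pp_loc (h1 : ∀ i, ∑ j, nm (B i j) ≤ c) (h2 : ∀ j, ∑ i, nm (B i j) ≤ c) (i : ι) :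
    ALoc (pp B c i) := by
  refine ALoc.of_approx fun ε hε => ?_
  obtain ⟨s, hs, hs1, hs2⟩ := exists_small c ε hε
  obtain ⟨K, hK⟩ := ((pow_tendsto c s hs).eventually_le_const
    (show (0 : ℝ) < ε / 2 by linarith)).exists
  refine ⟨pt B c s K i, pt_loc B c s K i, fun X _ _ x => ?_⟩
  refine (pp_pt h1 h2 s hs hs1 K i X x).trans ?_
  linarith

variable (B c)

/-- the truncated density of the logarithm of the determinant -/
noncomputable def fk (s : ℝ) (K : ℕ) (i : ι) : PF G := fun X _ _ x =>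
  Real.log (c + s) + (- 1) * ∑ k ∈ range K, (((k : ℝ) + 1) * ((c : ℝ) + s) ^ (k + 1))⁻¹ *
    bk B (k + 1) i X x

theorem fk_loc (s : ℝ) (K : ℕ) (i : ι) : ALoc (fk B c s K i) :=
  (ALoc.const (Real.log (c + s))).add ((ALoc.sum (range K)
    (fun k => fun X _ _ x => (((k : ℝ) + 1) * ((c : ℝ) + s) ^ (k + 1))⁻¹ * bk B (k + 1) i X x)
      fun k _ => (bk_loc B (k + 1) i).smul _).smul (-1))

/-- the density of the torsion -/
noncomputable def dn (s : ℝ) (K : ℕ) : PF G := fun X _ _ x =>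
  ∑ i, (fk B c s K i X x + ((- Real.log s) * pp B c i X x + (-1) * eta (pp B c i X x)))

variable {B c}

theorem dn_loc (h1 : ∀ i, ∑ j, nm (B i j) ≤ c) (h2 : ∀ j, ∑ i, nm (B i j) ≤ c) (s : ℝ) (K : ℕ) :
    ALoc (dn B c s K) :=
  ALoc.sum univ (fun i => fun X _ _ x =>
    (fk B c s K i X x + ((- Real.log s) * pp B c i X x + (-1) * eta (pp B c i X x)))) fun i _ =>
      (fk_loc B c s K i).add (((pp_loc h1 h2 i).smul _).add
        (((pp_loc h1 h2 i).comp eta eta_uc).smul _))

open Classical in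
theorem sum_fk (s : ℝ) (K : ℕ) (X : Type) [Fintype X] [MulAction G X] :
    FK (reg X B) c s K = ∑ x : X, ∑ i, fk B c s K i X x := by
  unfold FK fk
  rw [← Fintype.sum_prod_type' (f := fun (x : X) (i : ι) => Real.log (c + s) +
    (- 1) * ∑ k ∈ range K, (((k : ℝ) + 1) * ((c : ℝ) + s) ^ (k + 1))⁻¹ * bk B (k + 1) i X x),
    Finset.sum_add_distrib, Finset.sum_const, nsmul_eq_mul, Finset.card_univ, ← Finset.mul_sum,
    Finset.sum_comm, sub_eq_add_neg, neg_one_mul]
  congr 2
  refine Finset.sum_congr rfl fun k _ => ?_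
  rw [← Finset.mul_sum, div_eq_inv_mul]
  congr 1
  simp only [Matrix.trace, Matrix.diag_apply, bk]
  push_cast
  rfl

/-- **the torsion is approximated by sums of local functions** -/
theorem main_approx (h1 : ∀ i, ∑ j, nm (B i j) ≤ c) (h2 : ∀ j, ∑ i, nm (B i j) ≤ c) (s : ℝ)
    (hs : 0 < s) (hs1 : s ≤ 1) (K : ℕ) (hK : 1 ≤ K) (X : Type) [Fintype X] [MulAction G X] :
    |Real.log (tc (Cok (reg X (c • (1 : Matrix ι ι (MonoidAlgebra ℤ G)) - B)))) -
      ∑ x : X, dn B c s K X x| ≤ Fintype.card X * (Fintype.card ι *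
        (16 * Real.sqrt s + c / (K * s) * ((c : ℝ) / (c + s)) ^ K)) := by
  classical
  have h3 := reg_row X B c h1
  have h4 := reg_col X B c h2
  have h5 := er_le (cB (reg X B) c) (cB_DD (reg X B) c h3 h4) s hs hs1
  have h6 := log_FK (reg X B) c h3 h4 s hs K hK
  rw [reg_cB]
  have h7 : ∑ x : X, dn B c s K X x = FK (reg X B) c s K - Real.log s *
      ∑ y, Pf (cB (reg X B) c) y - ∑ y, Real.negMulLog (Pf (cB (reg X B) c) y) := by
    unfold dn
    simp only [Finset.sum_add_distrib]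
    rw [← sum_fk, ← Fintype.sum_prod_type' (f := fun (x : X) (i : ι) => -Real.log s * pp B c i X x),
      ← Fintype.sum_prod_type' (f := fun (x : X) (i : ι) => -1 * eta (pp B c i X x)),
      ← Finset.mul_sum, ← Finset.mul_sum]
    have h8 : ∀ y : X × ι, pp B c y.2 X y.1 = Pf (cB (reg X B) c) y := fun y => rfl
    have h9 : ∀ y : X × ι, eta (Pf (cB (reg X B) c) y) = Real.negMulLog (Pf (cB (reg X B) c) y) :=
      fun y => eta_eq _ (Pf_nonneg _ _) (Pf_le_one _ _)
    simp only [h8, h9]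
    ring
  rw [h7]
  rw [Fintype.card_prod] at h5 h6
  push_cast at h5 h6
  unfold er at h5
  rw [abs_le] at h5 h6 ⊢
  constructor <;> nlinarith [h5.1, h5.2, h6.1, h6.2]

end dens

end Pool.Agent.V8H82.DM
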