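import Pool.Agent.V8H82.DM.Lim

set_option autoImplicit false

/-!
# Torsion growth for dominated matrices
-/

namespace Pool.Agent.V8H82.DM

open Finset Matrix Filter Topology
open Pool.Agent.Q181.TG (reg tc Cok Far)

variable {G : Type} [Group G]

theorem av_add (f g : PF G) (X : Type) [Fintype X] [MulAction G X] :
    av (G := G) (fun X _ _ x => f X x + g X x) X = av f X + av g X := by
  unfold av
  rw [Finset.sum_add_distrib, add_div]

theorem av_smul (f : PF G) (a : ℝ) (X : Type) [Fintype X] [MulAction G X] :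
    av (G := G) (fun X _ _ x => a * f X x) X = a * av f X := by
  unfold av
  rw [← Finset.mul_sum, mul_div_assoc]

theorem av_sum {J : Type} (s : Finset J) (f : J → PF G) (X : Type) [Fintype X] [MulAction G X] :
    av (G := G) (fun X _ _ x => ∑ j ∈ s, f j X x) X = ∑ j ∈ s, av (f j) X := by
  unfold av
  rw [Finset.sum_comm, Finset.sum_div]

theorem av_const (a : ℝ) (X : Type) [Fintype X] [Nonempty X] [MulAction G X] :
    av (G := G) (fun X _ _ _ => a) X = a := by
  unfold av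
  have hc : (0 : ℝ) < Fintype.card X := by exact_mod_cast Fintype.card_pos
  rw [Finset.sum_const, nsmul_eq_mul, Finset.card_univ]
  field_simp

section

variable {ι : Type} [Fintype ι] [DecidableEq ι] (B : Matrix ι ι (MonoidAlgebra ℤ G)) (c : ℕ)

/-- the power series of the diagonal entries of the Green function of `c + s - B` -/
noncomputable def green0 (s : ℝ) (i : ι) : ℝ :=
  ∑' k : ℕ, (((B ^ k) i i).coeff 1 : ℝ) / ((c : ℝ) + s) ^ (k + 1)

/-- the power series of the logarithm of the Fuglede-Kadison determinant of `c + s - B` -/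
noncomputable def logdet (s : ℝ) : ℝ :=
  ∑ i, (Real.log (c + s) -
    ∑' k : ℕ, (((B ^ (k + 1)) i i).coeff 1 : ℝ) / (((k : ℝ) + 1) * ((c : ℝ) + s) ^ (k + 1)))

/-- truncated sums -/
noncomputable def ptf (s : ℝ) (K : ℕ) (i : ι) : ℝ :=
  s * ∑ k ∈ range K, ((c : ℝ) + s)⁻¹ ^ (k + 1) * bf B k i

/-- truncated sums -/
noncomputable def fkf (s : ℝ) (K : ℕ) (i : ι) : ℝ :=
  Real.log (c + s) + (-1) * ∑ k ∈ range K, (((k : ℝ) + 1) * ((c : ℝ) + s) ^ (k + 1))⁻¹ *
    bf B (k + 1) i

/-- the error term -/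
noncomputable def Er (s : ℝ) (K : ℕ) : ℝ := c / (K * s) * ((c : ℝ) / (c + s)) ^ K

theorem Er_nonneg (s : ℝ) (hs : 0 < s) (K : ℕ) : 0 ≤ Er c s K := by
  unfold Er
  positivity

theorem Er_tendsto (s : ℝ) (hs : 0 < s) : Tendsto (fun K => Er c s K) atTop (𝓝 0) := by
  have h1 := (pow_tendsto c s hs).const_mul (c / s)
  rw [mul_zero] at h1
  refine squeeze_zero' (Eventually.of_forall fun K => Er_nonneg c s hs K) ?_ h1
  filter_upwards [eventually_ge_atTop 1] with K hK
  unfold Er
  have hK' : (1 : ℝ) ≤ K := by exact_mod_cast hK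
  refine mul_le_mul_of_nonneg_right ?_ (by positivity)
  refine div_le_div_of_nonneg_left (Nat.cast_nonneg c) hs ?_
  nlinarith

variable {B c}

theorem testable (h1 : ∀ i, ∑ j, nm (B i j) ≤ c) (h2 : ∀ j, ∑ i, nm (B i j) ≤ c) (ε : ℝ)
    (hε : 0 < ε) : ∃ (s : ℝ) (K : ℕ), 0 < s ∧ s ≤ 1 ∧ 1 ≤ K ∧
      ∀ (X : Type) [Fintype X] [MulAction G X],
        |Real.log (tc (Cok (reg X (c • (1 : Matrix ι ι (MonoidAlgebra ℤ G)) - B)))) -
          ∑ x : X, dn B c s K X x| ≤ Fintype.card X * ε := by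
  set m : ℝ := (Fintype.card ι : ℝ) + 1 with hm
  have hm0 : (0 : ℝ) ≤ Fintype.card ι := Nat.cast_nonneg _
  have hm1 : 0 < m := by linarith
  obtain ⟨s, hs, hs1, hs2⟩ := exists_small c (ε / (2 * m)) (by positivity)
  obtain ⟨K, hK1, hK2⟩ := ((Er_tendsto c s hs).eventually_le_const
    (show (0 : ℝ) < ε / (2 * m) by positivity)).and (eventually_ge_atTop 1) |>.exists
  refine ⟨s, K, hs, hs1, hK2, fun X _ _ => ?_⟩
  refine (main_approx h1 h2 s hs hs1 K hK2 X).trans ?_
  refine mul_le_mul_of_nonneg_left ?_ (Nat.cast_nonneg _)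
  have h3 : 16 * Real.sqrt s + c / (K * s) * ((c : ℝ) / (c + s)) ^ K ≤ ε / m := by
    have h4 : ε / m = ε / (2 * m) + ε / (2 * m) := by
      field_simp
      ring
    rw [h4]
    exact add_le_add hs2 hK1
  have h4 : 0 ≤ 16 * Real.sqrt s + c / (K * s) * ((c : ℝ) / (c + s)) ^ K := by positivity
  calc (Fintype.card ι : ℝ) * (16 * Real.sqrt s + c / (K * s) * ((c : ℝ) / (c + s)) ^ K) ≤
        m * (ε / m) := mul_le_mul (by linarith) h3 h4 hm1.le
    _ = ε := by field_simp

theorem log_div_sub (F a : ℝ) (f : PF G) (X : Type) [Fintype X] [Nonempty X] [MulAction G X]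
    (h : |F - ∑ x : X, f X x| ≤ Fintype.card X * a) : |F / Fintype.card X - av f X| ≤ a := by
  have hc : (0 : ℝ) < Fintype.card X := by exact_mod_cast Fintype.card_pos
  unfold av
  rw [← sub_div, abs_div, abs_of_pos hc, div_le_iff₀ hc, mul_comm]
  exact h

/-- convergence along all Benjamini-Schramm convergent sequences -/
theorem conv_BS (h1 : ∀ i, ∑ j, nm (B i j) ≤ c) (h2 : ∀ j, ∑ i, nm (B i j) ≤ c) (X : ℕ → Type)
    [∀ n, Fintype (X n)] [∀ n, Nonempty (X n)] [∀ n, MulAction G (X n)] (hX : BSConv G X) :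
    ∃ L : ℝ, Tendsto (fun n => Real.log (tc (Cok (reg (X n)
      (c • (1 : Matrix ι ι (MonoidAlgebra ℤ G)) - B)))) / Fintype.card (X n)) atTop (𝓝 L) := by
  refine conv_of_approx _ fun ε hε => ?_
  obtain ⟨s, K, hs, hs1, hK, h3⟩ := testable h1 h2 ε hε
  exact ⟨fun n => av (dn B c s K) (X n), av_BS X hX _ (dn_loc h1 h2 s K), fun n =>
    log_div_sub _ _ _ (X n) (h3 (X n))⟩

section far

variable (X : ℕ → Type) [∀ n, Fintype (X n)] [∀ n, Nonempty (X n)] [∀ n, MulAction G (X n)]

theorem bk_far (hX : Far G X) (k : ℕ) (i : ι) :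
    Tendsto (fun n => av (bk B k i) (X n)) atTop (𝓝 (bf B k i)) := by
  classical
  have h1 := av_lf_far X hX ((B ^ k) i i).coeff.support
    (fun P => ∑ h ∈ P, (((B ^ k) i i).coeff h : ℝ))
  have h2 : ∑ h ∈ ((B ^ k) i i).coeff.support.filter (fun g => g = 1),
      (((B ^ k) i i).coeff h : ℝ) = bf B k i := by
    rw [Finset.sum_filter, Finset.sum_ite_eq' _ (1 : G)]
    unfold bf
    split_ifs with h
    · rfl
    · rw [Finsupp.notMem_support_iff.1 h]
      simp
  rw [h2] at h1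
  refine h1.congr fun n => ?_
  unfold av lf
  congr 1
  exact Finset.sum_congr rfl fun x _ => (bk_eq B k i (X n) x).symm

theorem pt_far (hX : Far G X) (s : ℝ) (K : ℕ) (i : ι) :
    Tendsto (fun n => av (pt B c s K i) (X n)) atTop (𝓝 (ptf B c s K i)) := by
  have h1 : ∀ n, av (pt B c s K i) (X n) =
      s * ∑ k ∈ range K, ((c : ℝ) + s)⁻¹ ^ (k + 1) * av (bk B k i) (X n) := by
    intro n
    unfold pt
    rw [av_smul (fun X _ _ x => ∑ k ∈ range K, ((c : ℝ) + s)⁻¹ ^ (k + 1) * bk B k i X x),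
      av_sum (range K) (fun k => fun X _ _ x => ((c : ℝ) + s)⁻¹ ^ (k + 1) * bk B k i X x)]
    congr 1
    exact Finset.sum_congr rfl fun k _ => av_smul _ _ _
  simp only [h1]
  unfold ptf
  exact (tendsto_finsetSum _ fun k _ => (bk_far X hX k i).const_mul _).const_mul s

theorem fk_far (hX : Far G X) (s : ℝ) (K : ℕ) (i : ι) :
    Tendsto (fun n => av (fk B c s K i) (X n)) atTop (𝓝 (fkf B c s K i)) := by
  have h1 : ∀ n, av (fk B c s K i) (X n) = Real.log (c + s) + (-1) *
      ∑ k ∈ range K, (((k : ℝ) + 1) * ((c : ℝ) + s) ^ (k + 1))⁻¹ * av (bk B (k + 1) i) (X n) := by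
    intro n
    unfold fk
    rw [av_add (fun X _ _ x => Real.log (c + s)) (fun X _ _ x => (-1) *
      ∑ k ∈ range K, (((k : ℝ) + 1) * ((c : ℝ) + s) ^ (k + 1))⁻¹ * bk B (k + 1) i X x), av_const,
      av_smul (fun X _ _ x => ∑ k ∈ range K, (((k : ℝ) + 1) * ((c : ℝ) + s) ^ (k + 1))⁻¹ *
        bk B (k + 1) i X x),
      av_sum (range K) (fun k => fun X _ _ x => (((k : ℝ) + 1) * ((c : ℝ) + s) ^ (k + 1))⁻¹ *
        bk B (k + 1) i X x)]
    congr 2
    exact Finset.sum_congr rfl fun k _ => av_smul _ _ _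
  simp only [h1]
  unfold fkf
  exact ((tendsto_finsetSum _ fun k _ => (bk_far X hX (k + 1) i).const_mul _).const_mul
    (-1)).const_add _

theorem bf_le (hX : Far G X) (h1 : ∀ i, ∑ j, nm (B i j) ≤ c) (k : ℕ) (i : ι) :
    |bf B k i| ≤ (c : ℝ) ^ k := by
  classical
  refine le_of_tendsto' (bk_far X hX k i).abs fun n => ?_
  have h2 := av_sub_le (bk B k i) (fun _ _ _ _ => 0) ((c : ℝ) ^ k) (X n) (fun x => by
    rw [sub_zero]
    exact pow_entry (reg (X n) B) c (reg_row (X n) B c h1) k (x, i))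
  rw [av_const, sub_zero] at h2
  exact h2

theorem far_main (hX : Far G X) (h1 : ∀ i, ∑ j, nm (B i j) ≤ c) (h2 : ∀ j, ∑ i, nm (B i j) ≤ c) :
    ∃ (κ : ι → ℝ) (L : ℝ), (∀ i, 0 ≤ κ i) ∧ (∀ i, κ i ≤ 1) ∧
      (∀ i (s : ℝ) (K : ℕ), 0 < s → s ≤ 1 → |κ i - ptf B c s K i| ≤
        8 * Real.sqrt s + ((c : ℝ) / (c + s)) ^ K) ∧
      Tendsto (fun n => Real.log (tc (Cok (reg (X n)
        (c • (1 : Matrix ι ι (MonoidAlgebra ℤ G)) - B)))) / Fintype.card (X n)) atTop (𝓝 L) ∧
      ∀ (s : ℝ) (K : ℕ), 0 < s → s ≤ 1 → 1 ≤ K →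
        |L - ∑ i, (fkf B c s K i + ((-Real.log s) * κ i + (-1) * eta (κ i)))| ≤
          Fintype.card ι * (16 * Real.sqrt s + Er c s K) := by
  choose κ hκ using fun i => av_far X hX (pp B c i) (pp_loc h1 h2 i)
  have hF : ∃ L : ℝ, Tendsto (fun n => Real.log (tc (Cok (reg (X n)
      (c • (1 : Matrix ι ι (MonoidAlgebra ℤ G)) - B)))) / Fintype.card (X n)) atTop (𝓝 L) := by
    refine conv_of_approx _ fun ε hε => ?_
    obtain ⟨s, K, hs, hs1, hK, h3⟩ := testable h1 h2 ε hε
    exact ⟨fun n => av (dn B c s K) (X n), av_far X hX _ (dn_loc h1 h2 s K), fun n =>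
      log_div_sub _ _ _ (X n) (h3 (X n))⟩
  obtain ⟨L, hL⟩ := hF
  refine ⟨κ, L, fun i => ?_, fun i => ?_, fun i s K hs hs1 => ?_, hL, fun s K hs hs1 hK => ?_⟩
  · refine ge_of_tendsto' (hκ i) fun n => ?_
    unfold av
    exact div_nonneg (Finset.sum_nonneg fun x _ => pp_nonneg i (X n) x) (Nat.cast_nonneg _)
  · refine le_of_tendsto' (hκ i) fun n => ?_
    unfold av
    have hc : (0 : ℝ) < Fintype.card (X n) := by exact_mod_cast Fintype.card_pos
    rw [div_le_one hc]
    have h3 : ∑ x : X n, pp B c i (X n) x ≤ ∑ x : X n, (1 : ℝ) :=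
      Finset.sum_le_sum fun x _ => pp_le_one i (X n) x
    simpa using h3
  · exact lim_le (hκ i) (pt_far X hX s K i) fun n =>
      av_sub_le _ _ _ (X n) fun x => pp_pt h1 h2 s hs hs1 K i (X n) x
  · have h3 : Tendsto (fun n => av (dn B c s K) (X n)) atTop
        (𝓝 (∑ i, (fkf B c s K i + ((-Real.log s) * κ i + (-1) * eta (κ i))))) := by
      have h4 : ∀ n, av (dn B c s K) (X n) = ∑ i, (av (fk B c s K i) (X n) +
          ((-Real.log s) * av (pp B c i) (X n) +
            (-1) * av (G := G) (fun X _ _ x => eta (pp B c i X x)) (X n))) := by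
        intro n
        unfold dn
        rw [av_sum univ (fun i => fun X _ _ x =>
          (fk B c s K i X x + ((- Real.log s) * pp B c i X x + (-1) * eta (pp B c i X x))))]
        refine Finset.sum_congr rfl fun i _ => ?_
        rw [av_add (fk B c s K i) (fun X _ _ x =>
          ((- Real.log s) * pp B c i X x + (-1) * eta (pp B c i X x))),
          av_add (fun X _ _ x => (- Real.log s) * pp B c i X x)
            (fun X _ _ x => (-1) * eta (pp B c i X x)), av_smul (pp B c i),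
          av_smul (fun X _ _ x => eta (pp B c i X x))]
      simp only [h4]
      refine tendsto_finsetSum _ fun i _ => (fk_far X hX s K i).add (((hκ i).const_mul _).add ?_)
      exact (av_comp X hX (pp B c i) (pp_loc h1 h2 i) eta eta_uc (κ i) (hκ i)).const_mul _
    refine lim_le hL h3 fun n => log_div_sub _ _ _ (X n) ?_
    exact main_approx h1 h2 s hs hs1 K hK (X n)

/-- **the formula for the limit** -/
theorem far_formula (hX : Far G X) (h1 : ∀ i, ∑ j, nm (B i j) ≤ c)
    (h2 : ∀ j, ∑ i, nm (B i j) ≤ c) :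
    ∃ (κ : ι → ℝ) (L : ℝ),
      (∀ i (s : ℝ), 0 < s → s ≤ 1 → |κ i - s * green0 B c s i| ≤ 8 * Real.sqrt s) ∧
      (∀ s : ℝ, 0 < s → s ≤ 1 → |L - (logdet B c s - Real.log s * ∑ i, κ i -
          ∑ i, Real.negMulLog (κ i))| ≤ 16 * Fintype.card ι * Real.sqrt s) ∧
      Tendsto (fun n => Real.log (tc (Cok (reg (X n)
        (c • (1 : Matrix ι ι (MonoidAlgebra ℤ G)) - B)))) / Fintype.card (X n)) atTop (𝓝 L) := by
  obtain ⟨κ, L, hκ0, hκ1, h3, h4, h5⟩ := far_main X hX h1 h2
  have hc : (0 : ℝ) ≤ c := Nat.cast_nonneg c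
  refine ⟨κ, L, fun i s hs hs1 => ?_, fun s hs hs1 => ?_, h4⟩
  · have hcs : (0 : ℝ) < c + s := by linarith
    have hsum : Summable fun k : ℕ => (((B ^ k) i i).coeff 1 : ℝ) / ((c : ℝ) + s) ^ (k + 1) := by
      have hq : (c : ℝ) / (c + s) < 1 := by
        rw [div_lt_one hcs]
        linarith
      refine Summable.of_norm_bounded
        (g := fun k => ((c : ℝ) + s)⁻¹ * ((c : ℝ) / (c + s)) ^ k)
        ((summable_geometric_of_lt_one (by positivity) hq).mul_left _) fun k => ?_
      rw [Real.norm_eq_abs, abs_div, abs_of_pos (by positivity : (0 : ℝ) < ((c : ℝ) + s) ^ (k + 1)),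
        div_le_iff₀ (by positivity), div_pow]
      have h6 : ((c : ℝ) + s)⁻¹ * ((c : ℝ) ^ k / (c + s) ^ k) * (c + s) ^ (k + 1) = c ^ k := by
        rw [pow_succ]
        field_simp
      rw [h6]
      exact bf_le X hX h1 k i
    have h6 : Tendsto (fun K => ptf B c s K i) atTop (𝓝 (s * green0 B c s i)) := by
      unfold ptf green0
      refine Tendsto.const_mul s ?_
      refine hsum.hasSum.tendsto_sum_nat.congr fun K => ?_
      refine Finset.sum_congr rfl fun k _ => ?_
      rw [inv_pow, div_eq_inv_mul]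
      rfl
    have h7 : Tendsto (fun K => |κ i - ptf B c s K i|) atTop (𝓝 |κ i - s * green0 B c s i|) :=
      (tendsto_const_nhds.sub h6).abs
    have h8 : Tendsto (fun K => 8 * Real.sqrt s + ((c : ℝ) / (c + s)) ^ K) atTop
        (𝓝 (8 * Real.sqrt s)) := by
      simpa using (pow_tendsto c s hs).const_add (8 * Real.sqrt s)
    exact le_of_tendsto_of_tendsto' h7 h8 fun K => h3 i s K hs hs1
  · have hcs : (0 : ℝ) < c + s := by linarith
    have hsum : ∀ i, Summable fun k : ℕ => (((B ^ (k + 1)) i i).coeff 1 : ℝ) /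
        (((k : ℝ) + 1) * ((c : ℝ) + s) ^ (k + 1)) := by
      intro i
      have hq : (c : ℝ) / (c + s) < 1 := by
        rw [div_lt_one hcs]
        linarith
      refine Summable.of_norm_bounded
        (g := fun k => ((c : ℝ) / (c + s)) * ((c : ℝ) / (c + s)) ^ k)
        ((summable_geometric_of_lt_one (by positivity) hq).mul_left _) fun k => ?_
      rw [Real.norm_eq_abs, abs_div,
        abs_of_pos (by positivity : (0 : ℝ) < ((k : ℝ) + 1) * ((c : ℝ) + s) ^ (k + 1)),
        div_le_iff₀ (by positivity), div_pow]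
      have h6 : ((c : ℝ) / (c + s)) * ((c : ℝ) ^ k / (c + s) ^ k) *
          (((k : ℝ) + 1) * (c + s) ^ (k + 1)) = (k + 1) * c ^ (k + 1) := by
        field_simp
        ring
      rw [h6]
      have h7 := bf_le X hX h1 (k + 1) i
      have h8 : (0 : ℝ) ≤ (c : ℝ) ^ (k + 1) := by positivity
      have h9 : (0 : ℝ) ≤ k := Nat.cast_nonneg k
      have h10 : |(((B ^ (k + 1)) i i).coeff 1 : ℝ)| ≤ (c : ℝ) ^ (k + 1) := h7
      nlinarith
    have h6 : Tendsto (fun K => ∑ i, (fkf B c s K i + ((-Real.log s) * κ i + (-1) * eta (κ i))))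
        atTop (𝓝 (logdet B c s - Real.log s * ∑ i, κ i - ∑ i, Real.negMulLog (κ i))) := by
      have h7 : logdet B c s - Real.log s * ∑ i, κ i - ∑ i, Real.negMulLog (κ i) =
          ∑ i, ((Real.log (c + s) + (-1) * ∑' k : ℕ, (((B ^ (k + 1)) i i).coeff 1 : ℝ) /
            (((k : ℝ) + 1) * ((c : ℝ) + s) ^ (k + 1))) +
              ((-Real.log s) * κ i + (-1) * eta (κ i))) := by
        unfold logdet
        rw [Finset.mul_sum, ← Finset.sum_sub_distrib, ← Finset.sum_sub_distrib]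
        refine Finset.sum_congr rfl fun i _ => ?_
        rw [eta_eq _ (hκ0 i) (hκ1 i)]
        ring
      rw [h7]
      refine tendsto_finsetSum _ fun i _ => Tendsto.add_const _ ?_
      unfold fkf
      refine Tendsto.const_add _ (Tendsto.const_mul _ ?_)
      refine (hsum i).hasSum.tendsto_sum_nat.congr fun K => ?_
      refine Finset.sum_congr rfl fun k _ => ?_
      rw [div_eq_inv_mul]
      rfl
    have h7 := (tendsto_const_nhds (x := L)).sub h6 |>.abs
    have h8 : Tendsto (fun K => (Fintype.card ι : ℝ) * (16 * Real.sqrt s + Er c s K)) atTop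
        (𝓝 (16 * Fintype.card ι * Real.sqrt s)) := by
      have h9 := ((Er_tendsto c s hs).const_add (16 * Real.sqrt s)).const_mul (Fintype.card ι : ℝ)
      rw [add_zero] at h9
      have h10 : (Fintype.card ι : ℝ) * (16 * Real.sqrt s) = 16 * Fintype.card ι * Real.sqrt s := by
        ring
      rwa [h10] at h9
    refine le_of_tendsto_of_tendsto h7 h8 ?_
    filter_upwards [eventually_ge_atTop 1] with K hK
    exact h5 s K hs hs1 hK

end far

end

end Pool.Agent.V8H82.DM
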