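import Mathlib

set_option autoImplicit false

/-!
# Diagonally dominant integral matrices: energy and paths
-/

namespace Pool.Agent.V8H82.DM

open Finset

variable {Y : Type} [Fintype Y] [DecidableEq Y]

/-- rows and columns are dominated by the diagonal -/
structure DD (N : Matrix Y Y ℤ) : Prop where
  row : ∀ y, ∑ z, |N y z| ≤ 2 * N y y
  col : ∀ y, ∑ z, |N z y| ≤ 2 * N y y

/-- the deficiency (of the row and of the column) -/
def dfc (N : Matrix Y Y ℤ) (y : Y) : ℤ := 4 * N y y - ∑ z, |N y z| - ∑ z, |N z y|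

theorem DD.dfc_nonneg {N : Matrix Y Y ℤ} (h : DD N) (y : Y) : 0 ≤ dfc N y := by
  have := h.row y
  have := h.col y
  unfold dfc
  omega

theorem DD.diag_nonneg {N : Matrix Y Y ℤ} (h : DD N) (y : Y) : 0 ≤ N y y := by
  have := h.row y
  have h2 : 0 ≤ ∑ z, |N y z| := Finset.sum_nonneg fun z _ => abs_nonneg _
  omega

/-- the quadratic form -/
def qf (N : Matrix Y Y ℤ) (v : Y → ℝ) : ℝ := ∑ y, ∑ z, (N y z : ℝ) * v y * v z

/-- the energy of an ordered pair -/
def en (N : Matrix Y Y ℤ) (v : Y → ℝ) (y z : Y) : ℝ :=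
  if z = y then 0 else |(N y z : ℝ)| * (v y ^ 2 + v z ^ 2) + 2 * (N y z : ℝ) * v y * v z

theorem en_nonneg (N : Matrix Y Y ℤ) (v : Y → ℝ) (y z : Y) : 0 ≤ en N v y z := by
  unfold en
  split_ifs
  · exact le_rfl
  · have h1 := neg_abs_le (N y z : ℝ)
    have h2 := le_abs_self (N y z : ℝ)
    nlinarith [mul_nonneg (abs_nonneg (N y z : ℝ)) (sq_nonneg (v y + v z)),
      mul_nonneg (abs_nonneg (N y z : ℝ)) (sq_nonneg (v y - v z)),
      mul_nonneg (sub_nonneg.2 h2) (sq_nonneg (v y - v z)),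
      mul_nonneg (sub_nonneg.2 h1) (sq_nonneg (v y + v z)),
      mul_nonneg (sub_nonneg.2 h2) (sq_nonneg (v y + v z))]

theorem en_neg (N : Matrix Y Y ℤ) (v : Y → ℝ) (y z : Y) (hne : z ≠ y) (h : N y z < 0) :
    (v y - v z) ^ 2 ≤ en N v y z := by
  unfold en
  rw [if_neg hne]
  have h1 : (N y z : ℝ) ≤ -1 := by
    have : N y z ≤ -1 := by omega
    exact_mod_cast this
  rw [abs_of_neg (by linarith)]
  nlinarith [mul_nonneg (by linarith : (0 : ℝ) ≤ - (N y z : ℝ) - 1) (sq_nonneg (v y - v z))]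

theorem en_pos (N : Matrix Y Y ℤ) (v : Y → ℝ) (y z : Y) (hne : z ≠ y) (h : 0 < N y z) :
    (v y + v z) ^ 2 ≤ en N v y z := by
  unfold en
  rw [if_neg hne]
  have h1 : (1 : ℝ) ≤ (N y z : ℝ) := by
    have : 1 ≤ N y z := by omega
    exact_mod_cast this
  rw [abs_of_pos (by linarith)]
  nlinarith [mul_nonneg (by linarith : (0 : ℝ) ≤ (N y z : ℝ) - 1) (sq_nonneg (v y + v z))]

theorem en_sum (N : Matrix Y Y ℤ) (hN : DD N) (v : Y → ℝ) :
    2 * qf N v = ∑ y, (dfc N y : ℝ) * v y ^ 2 + ∑ y, ∑ z, en N v y z := by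
  have h1 : ∀ y, ∑ z, en N v y z =
      (∑ z, (|(N y z : ℝ)| * (v y ^ 2 + v z ^ 2) + 2 * (N y z : ℝ) * v y * v z))
        - 4 * (N y y : ℝ) * v y ^ 2 := by
    intro y
    have h2 : ∀ z, en N v y z = (|(N y z : ℝ)| * (v y ^ 2 + v z ^ 2) + 2 * (N y z : ℝ) * v y * v z)
        - if z = y then 4 * (N y y : ℝ) * v y ^ 2 else 0 := by
      intro z
      unfold en
      split_ifs with h
      · subst h
        have h3 : (0 : ℝ) ≤ (N z z : ℝ) := by exact_mod_cast hN.diag_nonneg z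
        rw [abs_of_nonneg h3]
        ring
      · ring
    rw [Finset.sum_congr rfl fun z _ => h2 z, Finset.sum_sub_distrib, Finset.sum_ite_eq' univ y]
    simp
  have h2 : ∑ y, ∑ z, |(N y z : ℝ)| * v z ^ 2 = ∑ y, (∑ z, |(N z y : ℝ)|) * v y ^ 2 := by
    rw [Finset.sum_comm]
    refine Finset.sum_congr rfl fun y _ => ?_
    rw [Finset.sum_mul]
  have h3 : ∀ y, (dfc N y : ℝ) = 4 * (N y y : ℝ) - ∑ z, |(N y z : ℝ)| - ∑ z, |(N z y : ℝ)| := by
    intro y
    unfold dfc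
    push_cast
    ring
  simp only [h1, h3, Finset.sum_sub_distrib, Finset.sum_add_distrib, mul_add, sub_mul, h2, qf,
    Finset.mul_sum, Finset.sum_mul]
  have h4 : ∀ y z, 2 * ((N y z : ℝ) * v y * v z) = 2 * (N y z : ℝ) * v y * v z := by
    intro y z
    ring
  simp only [h4]
  ring

/-- the local energy -/
def loc (N : Matrix Y Y ℤ) (v : Y → ℝ) (y : Y) : ℝ := ∑ z, (en N v y z + en N v z y)

theorem loc_nonneg (N : Matrix Y Y ℤ) (v : Y → ℝ) (y : Y) : 0 ≤ loc N v y :=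
  Finset.sum_nonneg fun z _ => add_nonneg (en_nonneg N v y z) (en_nonneg N v z y)

theorem loc_ge (N : Matrix Y Y ℤ) (v : Y → ℝ) (y z : Y) :
    en N v y z + en N v z y ≤ loc N v y :=
  Finset.single_le_sum (f := fun z => en N v y z + en N v z y)
    (fun z _ => add_nonneg (en_nonneg N v y z) (en_nonneg N v z y)) (Finset.mem_univ z)

theorem sum_loc (N : Matrix Y Y ℤ) (hN : DD N) (v : Y → ℝ) : ∑ y, loc N v y ≤ 4 * qf N v := by
  have h1 : ∑ y, loc N v y = 2 * ∑ y, ∑ z, en N v y z := by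
    unfold loc
    simp only [Finset.sum_add_distrib]
    rw [Finset.sum_comm (f := fun y z => en N v z y)]
    ring
  have h2 := en_sum N hN v
  have h3 : 0 ≤ ∑ y, (dfc N y : ℝ) * v y ^ 2 :=
    Finset.sum_nonneg fun y _ => mul_nonneg (by exact_mod_cast hN.dfc_nonneg y) (sq_nonneg _)
  linarith

theorem qf_ge_dfc (N : Matrix Y Y ℤ) (hN : DD N) (v : Y → ℝ) (y : Y) (hy : 1 ≤ dfc N y) :
    v y ^ 2 ≤ 2 * qf N v := by
  have h2 := en_sum N hN v
  have h3 : (dfc N y : ℝ) * v y ^ 2 ≤ ∑ y, (dfc N y : ℝ) * v y ^ 2 :=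
    Finset.single_le_sum (f := fun y => (dfc N y : ℝ) * v y ^ 2)
      (fun y _ => mul_nonneg (by exact_mod_cast hN.dfc_nonneg y) (sq_nonneg _)) (Finset.mem_univ y)
  have h4 : 0 ≤ ∑ y, ∑ z, en N v y z :=
    Finset.sum_nonneg fun y _ => Finset.sum_nonneg fun z _ => en_nonneg N v y z
  have h5 : (1 : ℝ) ≤ (dfc N y : ℝ) := by exact_mod_cast hy
  nlinarith [sq_nonneg (v y)]

theorem qf_nonneg (N : Matrix Y Y ℤ) (hN : DD N) (v : Y → ℝ) : 0 ≤ qf N v := by
  have h1 := sum_loc N hN v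
  have h2 : 0 ≤ ∑ y, loc N v y := Finset.sum_nonneg fun y _ => loc_nonneg N v y
  linarith

/-- the signed double cover of the graph of `N` -/
def gr (N : Matrix Y Y ℤ) : SimpleGraph (Y × ℤˣ) where
  Adj p q := q.1 ≠ p.1 ∧ (((N p.1 q.1 < 0 ∨ N q.1 p.1 < 0) ∧ q.2 = p.2) ∨
    ((0 < N p.1 q.1 ∨ 0 < N q.1 p.1) ∧ q.2 = - p.2))
  symm := ⟨by
    rintro p q ⟨h1, h2⟩
    refine ⟨h1.symm, ?_⟩
    rcases h2 with ⟨h3, h4⟩ | ⟨h3, h4⟩
    · exact Or.inl ⟨h3.symm, h4.symm⟩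
    · exact Or.inr ⟨h3.symm, by rw [h4, neg_neg]⟩⟩
  loopless := ⟨fun p h => h.1 rfl⟩

theorem adj_loc (N : Matrix Y Y ℤ) (v : Y → ℝ) (p q : Y × ℤˣ) (h : (gr N).Adj p q) (τ : ℝ)
    (hτ : τ ^ 2 = 1) :
    (τ * ((p.2 : ℤ) : ℝ) * v p.1 - τ * ((q.2 : ℤ) : ℝ) * v q.1) ^ 2 ≤ loc N v p.1 := by
  obtain ⟨y, ε⟩ := p
  obtain ⟨z, δ⟩ := q
  obtain ⟨h1, h2⟩ := h
  simp only at h1 h2 ⊢
  have hε : (((ε : ℤˣ) : ℤ) : ℝ) ^ 2 = 1 := by
    rcases Int.units_eq_one_or ε with h | h <;> simp [h]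
  have h3 := loc_ge N v y z
  have h4 := en_nonneg N v y z
  have h5 := en_nonneg N v z y
  rcases h2 with ⟨h6, rfl⟩ | ⟨h6, rfl⟩
  · have h7 : (τ * ((δ : ℤ) : ℝ) * v y - τ * ((δ : ℤ) : ℝ) * v z) ^ 2 = (v y - v z) ^ 2 := by
      have : (τ * ((δ : ℤ) : ℝ) * v y - τ * ((δ : ℤ) : ℝ) * v z) ^ 2 =
        τ ^ 2 * ((δ : ℤ) : ℝ) ^ 2 * (v y - v z) ^ 2 := by ring
      rw [this, hτ, hε]
      ring
    rw [h7]
    rcases h6 with h6 | h6
    · have := en_neg N v y z h1 h6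
      linarith
    · have := en_neg N v z y h1.symm h6
      have h8 : (v z - v y) ^ 2 = (v y - v z) ^ 2 := by ring
      linarith
  · have h7 : (τ * ((ε : ℤ) : ℝ) * v y - τ * (((-ε : ℤˣ) : ℤ) : ℝ) * v z) ^ 2 = (v y + v z) ^ 2 := by
      push_cast
      have : (τ * ((ε : ℤ) : ℝ) * v y - τ * (-((ε : ℤ) : ℝ)) * v z) ^ 2 =
        τ ^ 2 * ((ε : ℤ) : ℝ) ^ 2 * (v y + v z) ^ 2 := by ring
      rw [this, hτ, hε]
      ring
    rw [h7]
    rcases h6 with h6 | h6
    · have := en_pos N v y z h1 h6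
      linarith
    · have := en_pos N v z y h1.symm h6
      have h8 : (v z + v y) ^ 2 = (v y + v z) ^ 2 := by ring
      linarith

theorem path_aux (N : Matrix Y Y ℤ) (hN : DD N) (v : Y → ℝ) (y : Y) (τ : ℝ) (hτ : τ ^ 2 = 1)
    (ha : 0 < τ * v y) (q : Y × ℤˣ) (W : (gr N).Walk (y, 1) q) (hW : W.IsPath) (k : ℕ)
    (hk : k ≤ W.length)
    (hb : ∀ i, i < k → τ * v y / 2 < τ * (((W.getVert i).2 : ℤ) : ℝ) * v (W.getVert i).1)
    (he : τ * (((W.getVert k).2 : ℤ) : ℝ) * v (W.getVert k).1 ≤ τ * v y / 2)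
    (s : ℝ) (hs : 0 < s) (hs1 : s ≤ 1) :
    Real.sqrt s / 8 * v y ^ 2 ≤ qf N v + s * ∑ z, v z ^ 2 := by
  set f : ℕ → ℝ := fun i => τ * (((W.getVert i).2 : ℤ) : ℝ) * v (W.getVert i).1 with hf
  have hf0 : f 0 = τ * v y := by simp [hf]
  set a := τ * v y with haa
  have ha2 : a ^ 2 = v y ^ 2 := by
    rw [haa, mul_pow, hτ, one_mul]
  -- the vertices are distinct
  have hinj : Set.InjOn (fun i => (W.getVert i).1) (Finset.range k : Set ℕ) := by
    intro i hi j hj hij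
    have hi' : i < k := by simpa using hi
    have hj' : j < k := by simpa using hj
    simp only at hij
    have h1 := hb i hi'
    have h2 := hb j hj'
    have h3 : (W.getVert i).2 = (W.getVert j).2 := by
      by_contra hne
      have h4 : (W.getVert i).2 = - (W.getVert j).2 := by
        rcases Int.units_eq_one_or (W.getVert i).2 with h | h <;>
          rcases Int.units_eq_one_or (W.getVert j).2 with h' | h' <;>
          simp [h, h'] at hne ⊢
      rw [h4, hij] at h1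
      push_cast at h1
      nlinarith
    have h5 : W.getVert i = W.getVert j := Prod.ext hij h3
    exact hW.getVert_injOn (by simp; omega) (by simp; omega) h5
  have hk0 : 0 < k := by
    rcases Nat.eq_zero_or_pos k with h | h
    · subst h
      have h0 : f 0 ≤ a / 2 := he
      rw [hf0] at h0
      linarith
    · exact h
  -- the energy
  have h1 : ∑ i ∈ range k, (f i - f (i + 1)) ^ 2 ≤ 4 * qf N v := by
    have h2 : ∑ i ∈ range k, (f i - f (i + 1)) ^ 2 ≤ ∑ i ∈ range k, loc N v (W.getVert i).1 := by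
      refine Finset.sum_le_sum fun i hi => ?_
      have hi' : i < k := by simpa using hi
      exact adj_loc N v _ _ (W.adj_getVert_succ (by omega)) τ hτ
    have h3 : ∑ i ∈ range k, loc N v (W.getVert i).1 ≤ ∑ y, loc N v y := by
      rw [← Finset.sum_image (f := fun y => loc N v y) (g := fun i => (W.getVert i).1) hinj]
      exact Finset.sum_le_sum_of_subset_of_nonneg (Finset.subset_univ _)
        fun y _ _ => loc_nonneg N v y
    have h4 := sum_loc N hN v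
    linarith
  -- the mass
  have h5 : (k : ℝ) * (a ^ 2 / 4) ≤ ∑ z, v z ^ 2 := by
    have h2 : ∑ i ∈ range k, a ^ 2 / 4 ≤ ∑ i ∈ range k, v (W.getVert i).1 ^ 2 := by
      refine Finset.sum_le_sum fun i hi => ?_
      have hi' : i < k := by simpa using hi
      have h6 := hb i hi'
      have h7 : (τ * (((W.getVert i).2 : ℤ) : ℝ) * v (W.getVert i).1) ^ 2 = v (W.getVert i).1 ^ 2 := by
        have hε : (((W.getVert i).2 : ℤ) : ℝ) ^ 2 = 1 := by
          rcases Int.units_eq_one_or (W.getVert i).2 with h | h <;> simp [h]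
        rw [mul_pow, mul_pow, hτ, hε]
        ring
      rw [← h7]
      nlinarith
    have h3 : ∑ i ∈ range k, v (W.getVert i).1 ^ 2 ≤ ∑ y, v y ^ 2 := by
      rw [← Finset.sum_image (f := fun y => v y ^ 2) (g := fun i => (W.getVert i).1) hinj]
      exact Finset.sum_le_sum_of_subset_of_nonneg (Finset.subset_univ _)
        fun y _ _ => sq_nonneg _
    rw [Finset.sum_const, Finset.card_range, nsmul_eq_mul] at h2
    linarith
  -- Cauchy-Schwarz
  have h6 : (f 0 - f k) ^ 2 ≤ k * ∑ i ∈ range k, (f i - f (i + 1)) ^ 2 := by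
    have h7 : f 0 - f k = ∑ i ∈ range k, (f i - f (i + 1)) := by
      rw [Finset.sum_range_sub' f k]
    rw [h7]
    have h8 := sq_sum_le_card_mul_sum_sq (s := range k) (f := fun i => f i - f (i + 1))
    simpa using h8
  have h7 : a / 2 ≤ f 0 - f k := by
    have : f k ≤ a / 2 := he
    linarith
  have h8 : a ^ 2 / 4 ≤ (f 0 - f k) ^ 2 := by nlinarith
  have hkr : (0 : ℝ) < k := by exact_mod_cast hk0
  have h9 : a ^ 2 / 4 ≤ k * (4 * qf N v) := by
    have := mul_le_mul_of_nonneg_left h1 hkr.le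
    linarith
  have h10 : a ^ 2 / (16 * k) ≤ qf N v := by
    rw [div_le_iff₀ (by positivity)]
    linarith
  have h11 : s * (k * (a ^ 2 / 4)) ≤ s * ∑ z, v z ^ 2 := mul_le_mul_of_nonneg_left h5 hs.le
  have h12 : Real.sqrt s / 8 * a ^ 2 ≤ a ^ 2 / (16 * k) + s * (k * (a ^ 2 / 4)) := by
    have h13 : Real.sqrt s / 8 ≤ 1 / (16 * k) + s * k / 4 := by
      have h14 : s = Real.sqrt s ^ 2 := (Real.sq_sqrt hs.le).symm
      set r := Real.sqrt s with hr
      have hr0 : 0 ≤ r := Real.sqrt_nonneg s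
      rw [h14]
      have h15 : 0 ≤ (1 / (16 * (k : ℝ)) + r ^ 2 * k / 4) - r / 8 := by
        have h16 : (1 / (16 * (k : ℝ)) + r ^ 2 * k / 4) - r / 8 =
          ((1 - r * k) ^ 2 + 3 * (r * k) ^ 2) / (16 * k) := by
          field_simp
          ring
        rw [h16]
        positivity
      linarith
    have h17 := mul_le_mul_of_nonneg_right h13 (sq_nonneg a)
    have h18 : (1 / (16 * (k : ℝ)) + s * k / 4) * a ^ 2 = a ^ 2 / (16 * k) + s * (k * (a ^ 2 / 4)) := by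
      ring
    linarith
  rw [← ha2]
  linarith

/-- **the path lemma** -/
theorem path_lemma (N : Matrix Y Y ℤ) (hN : DD N) (v : Y → ℝ) (y z : Y) (ε : ℤˣ)
    (hr : (gr N).Reachable (y, 1) (z, ε)) (h : 1 ≤ dfc N z ∨ ((ε : ℤ) : ℝ) * v z * v y ≤ 0)
    (s : ℝ) (hs : 0 < s) (hs1 : s ≤ 1) :
    Real.sqrt s / 8 * v y ^ 2 ≤ qf N v + s * ∑ z, v z ^ 2 := by
  classical
  have hq := qf_nonneg N hN v
  have hm : 0 ≤ ∑ z, v z ^ 2 := Finset.sum_nonneg fun z _ => sq_nonneg _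
  by_cases hy : v y = 0
  · rw [hy]
    have : 0 ≤ s * ∑ z, v z ^ 2 := mul_nonneg hs.le hm
    simp only [ne_eq, OfNat.ofNat_ne_zero, not_false_eq_true, zero_pow, mul_zero]
    linarith
  obtain ⟨τ, hτ, ha⟩ : ∃ τ : ℝ, τ ^ 2 = 1 ∧ 0 < τ * v y := by
    rcases lt_or_gt_of_ne hy with h1 | h1
    · exact ⟨-1, by norm_num, by linarith⟩
    · exact ⟨1, by norm_num, by linarith⟩
  obtain ⟨W, hW⟩ := hr.exists_isPath
  by_cases hex : ∃ k, k ≤ W.length ∧
      τ * (((W.getVert k).2 : ℤ) : ℝ) * v (W.getVert k).1 ≤ τ * v y / 2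
  · have h1 := Nat.find_spec hex
    refine path_aux N hN v y τ hτ ha _ W hW (Nat.find hex) h1.1 ?_ h1.2 s hs hs1
    intro i hi
    have h2 := Nat.find_min hex hi
    push Not at h2
    exact h2 (by omega)
  · push Not at hex
    have h1 := hex W.length le_rfl
    rw [W.getVert_length] at h1
    simp only at h1
    have hε : ((ε : ℤ) : ℝ) ^ 2 = 1 := by
      rcases Int.units_eq_one_or ε with h | h <;> simp [h]
    rcases h with h | h
    · have h2 := qf_ge_dfc N hN v z h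
      have h3 : v y ^ 2 / 4 ≤ v z ^ 2 := by
        have h4 : (τ * ((ε : ℤ) : ℝ) * v z) ^ 2 = v z ^ 2 := by
          rw [mul_pow, mul_pow, hτ, hε]
          ring
        have h5 : (τ * v y) ^ 2 = v y ^ 2 := by rw [mul_pow, hτ, one_mul]
        rw [← h4, ← h5]
        nlinarith
      have h4 : Real.sqrt s ≤ 1 := Real.sqrt_le_one.mpr hs1
      have h5 : 0 ≤ s * ∑ z, v z ^ 2 := mul_nonneg hs.le hm
      nlinarith [sq_nonneg (v y), Real.sqrt_nonneg s]
    · exfalso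
      have h2 : 0 < (τ * ((ε : ℤ) : ℝ) * v z) * (τ * v y) := by
        have : 0 < τ * ((ε : ℤ) : ℝ) * v z := by linarith
        positivity
      have h3 : (τ * ((ε : ℤ) : ℝ) * v z) * (τ * v y) = τ ^ 2 * (((ε : ℤ) : ℝ) * v z * v y) := by ring
      rw [h3, hτ] at h2
      linarith

end Pool.Agent.V8H82.DM
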