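import Pool.Agent.V8H82.DM.Ser

set_option autoImplicit false

/-!
# The integral matrices of a matrix over the group ring
-/

namespace Pool.Agent.V8H82.DM

open Finset Matrix
open Pool.Agent.Q181.TG (reg tc Cok)

variable {G : Type} [Group G]

/-- the sum of the absolute values of the coefficients -/
noncomputable def nm (a : MonoidAlgebra ℤ G) : ℤ := ∑ h ∈ a.coeff.support, |a.coeff h|

section perm

variable (X : Type) [Fintype X] [DecidableEq X] [MulAction G X]

/-- the permutation representation by matrices -/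
def pm : G →* Matrix X X ℤ where
  toFun g := Matrix.of fun x y => if g • y = x then 1 else 0
  map_one' := by
    ext x y
    simp only [one_smul, of_apply, Matrix.one_apply]
    by_cases h : x = y
    · simp [h]
    · rw [if_neg (fun h' => h h'.symm), if_neg h]
  map_mul' g h := by
    ext x y
    simp only [of_apply, Matrix.mul_apply]
    rw [Finset.sum_eq_single (h • y)]
    · simp [mul_smul]
    · intro z _ hz
      rw [if_neg (fun h' : h • y = z => hz h'.symm), mul_zero]
    · intro h'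
      exact absurd (Finset.mem_univ _) h'

/-- the ring homomorphism given by the permutation module -/
noncomputable def pr : MonoidAlgebra ℤ G →ₐ[ℤ] Matrix X X ℤ := MonoidAlgebra.lift ℤ (Matrix X X ℤ) G (pm X)

theorem pr_apply (a : MonoidAlgebra ℤ G) (x y : X) :
    pr X a x y = ∑ h ∈ a.coeff.support, if h • y = x then a.coeff h else 0 := by
  unfold pr
  rw [MonoidAlgebra.lift_apply, Finsupp.sum, Matrix.sum_apply]
  refine Finset.sum_congr rfl fun h _ => ?_
  rw [Matrix.smul_apply]
  change _ • (if h • y = x then (1 : ℤ) else 0) = _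
  by_cases h' : h • y = x
  · simp [h']
  · simp [h']

theorem reg_eq {ι κ : Type} (A : Matrix ι κ (MonoidAlgebra ℤ G)) (p : X × ι) (q : X × κ) :
    reg X A p q = pr X (A p.2 q.2) p.1 q.1 := by
  rw [pr_apply]
  unfold reg Finsupp.sum
  refine Finset.sum_congr rfl fun h _ => ?_
  by_cases h' : h • q.1 = p.1
  · simp only [if_pos h']
  · simp only [if_neg h']

theorem reg_mul {ι κ μ : Type} [Fintype κ] (A : Matrix ι κ (MonoidAlgebra ℤ G))
    (B : Matrix κ μ (MonoidAlgebra ℤ G)) : reg X (A * B) = reg X A * reg X B := by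
  ext p q
  rw [reg_eq, Matrix.mul_apply, Matrix.mul_apply, map_sum, Matrix.sum_apply, Fintype.sum_prod_type,
    Finset.sum_comm]
  refine Finset.sum_congr rfl fun k _ => ?_
  rw [map_mul, Matrix.mul_apply]
  refine Finset.sum_congr rfl fun z _ => ?_
  rw [reg_eq, reg_eq]

theorem reg_one {ι : Type} [DecidableEq ι] :
    reg X (1 : Matrix ι ι (MonoidAlgebra ℤ G)) = 1 := by
  ext p q
  obtain ⟨x, i⟩ := p
  obtain ⟨y, j⟩ := q
  rw [reg_eq]
  by_cases h : i = j
  · subst h
    simp only [Matrix.one_apply_eq, map_one]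
    by_cases h2 : x = y
    · subst h2; simp
    · rw [Matrix.one_apply_ne h2, Matrix.one_apply_ne]
      intro h'
      exact h2 (Prod.ext_iff.mp h').1
  · simp only [Matrix.one_apply_ne h, map_zero, Matrix.zero_apply]
    rw [Matrix.one_apply_ne]
    intro h'
    exact h (Prod.ext_iff.mp h').2

theorem reg_pow {ι : Type} [Fintype ι] [DecidableEq ι] (B : Matrix ι ι (MonoidAlgebra ℤ G)) (k : ℕ) :
    reg X (B ^ k) = reg X B ^ k := by
  induction k with
  | zero => rw [pow_zero, pow_zero, reg_one]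
  | succ k ih => rw [pow_succ, pow_succ, reg_mul, ih]

theorem reg_cB {ι : Type} [Fintype ι] [DecidableEq ι] (B : Matrix ι ι (MonoidAlgebra ℤ G)) (c : ℕ) :
    reg X (c • (1 : Matrix ι ι (MonoidAlgebra ℤ G)) - B) = cB (reg X B) c := by
  ext p q
  have h1 : reg X (c • (1 : Matrix ι ι (MonoidAlgebra ℤ G)) - B) p q =
      c • reg X (1 : Matrix ι ι (MonoidAlgebra ℤ G)) p q - reg X B p q := by
    rw [reg_eq, reg_eq, reg_eq, Matrix.sub_apply, map_sub, Matrix.smul_apply, map_nsmul,
      Matrix.sub_apply, Matrix.smul_apply]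
  rw [h1, reg_one, cB, Matrix.sub_apply, Matrix.smul_apply, nsmul_eq_mul, smul_eq_mul]

theorem pr_row (a : MonoidAlgebra ℤ G) (x : X) : ∑ y, |pr X a x y| ≤ nm a := by
  have h1 : ∑ y, |pr X a x y| ≤ ∑ y, ∑ h ∈ a.coeff.support, if h • y = x then |a.coeff h| else 0 := by
    refine Finset.sum_le_sum fun y _ => ?_
    rw [pr_apply]
    refine (Finset.abs_sum_le_sum_abs _ _).trans (Finset.sum_le_sum fun h _ => ?_)
    split_ifs <;> simp
  refine h1.trans (le_of_eq ?_)
  rw [Finset.sum_comm, nm]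
  refine Finset.sum_congr rfl fun h _ => ?_
  rw [Finset.sum_eq_single (h⁻¹ • x)]
  · simp
  · intro y _ hy
    rw [if_neg]
    rintro rfl
    exact hy (by simp)
  · simp

theorem pr_col (a : MonoidAlgebra ℤ G) (y : X) : ∑ x, |pr X a x y| ≤ nm a := by
  have h1 : ∑ x, |pr X a x y| ≤ ∑ x, ∑ h ∈ a.coeff.support, if h • y = x then |a.coeff h| else 0 := by
    refine Finset.sum_le_sum fun x _ => ?_
    rw [pr_apply]
    refine (Finset.abs_sum_le_sum_abs _ _).trans (Finset.sum_le_sum fun h _ => ?_)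
    split_ifs <;> simp
  refine h1.trans (le_of_eq ?_)
  rw [Finset.sum_comm, nm]
  refine Finset.sum_congr rfl fun h _ => ?_
  rw [Finset.sum_ite_eq univ (h • y)]
  simp

theorem reg_row {ι κ : Type} [Fintype κ] (A : Matrix ι κ (MonoidAlgebra ℤ G)) (c : ℤ)
    (hA : ∀ i, ∑ j, nm (A i j) ≤ c) (p : X × ι) : ∑ q, |reg X A p q| ≤ c := by
  rw [Fintype.sum_prod_type, Finset.sum_comm]
  refine le_trans (Finset.sum_le_sum fun j _ => ?_) (hA p.2)
  refine le_trans (le_of_eq ?_) (pr_row X (A p.2 j) p.1)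
  exact Finset.sum_congr rfl fun y _ => by rw [reg_eq]

theorem reg_col {ι κ : Type} [Fintype ι] (A : Matrix ι κ (MonoidAlgebra ℤ G)) (c : ℤ)
    (hA : ∀ j, ∑ i, nm (A i j) ≤ c) (q : X × κ) : ∑ p, |reg X A p q| ≤ c := by
  rw [Fintype.sum_prod_type, Finset.sum_comm]
  refine le_trans (Finset.sum_le_sum fun i _ => ?_) (hA q.2)
  refine le_trans (le_of_eq ?_) (pr_col X (A i q.2) q.1)
  exact Finset.sum_congr rfl fun y _ => by rw [reg_eq]

end perm

end Pool.Agent.V8H82.DM
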