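import Pool.Agent.V8H82.DM.Det

set_option autoImplicit false

/-!
# Power series for the Green function and the logarithm of the determinant
-/

namespace Pool.Agent.V8H82.DM

open Finset Matrix Filter Topology

variable {Y : Type} [Fintype Y] [DecidableEq Y]

section norm

attribute [local instance] Matrix.linftyOpNormedRing Matrix.linftyOpNormedAlgebra

theorem nrm_le (A : Matrix Y Y ℝ) (r : ℝ) (hr : 0 ≤ r) (h : ∀ y, ∑ z, |A y z| ≤ r) : ‖A‖ ≤ r := by
  rw [Matrix.linfty_opNorm_def]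
  lift r to NNReal using hr
  rw [NNReal.coe_le_coe]
  refine Finset.sup_le fun y _ => ?_
  rw [← NNReal.coe_le_coe]
  push_cast
  simpa using h y

theorem abs_le_nrm (A : Matrix Y Y ℝ) (y z : Y) : |A y z| ≤ ‖A‖ := by
  rw [Matrix.linfty_opNorm_def]
  have h1 : ‖A y z‖₊ ≤ ∑ w, ‖A y w‖₊ :=
    Finset.single_le_sum (f := fun w => ‖A y w‖₊) (fun w _ => by positivity) (Finset.mem_univ z)
  have h2 : ∑ w, ‖A y w‖₊ ≤ Finset.univ.sup fun i => ∑ j, ‖A i j‖₊ :=
    Finset.le_sup (f := fun i => ∑ j, ‖A i j‖₊) (Finset.mem_univ y)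
  have h3 := h1.trans h2
  rw [← NNReal.coe_le_coe] at h3
  simpa using h3

theorem nrm_one : ‖(1 : Matrix Y Y ℝ)‖ ≤ 1 := by
  refine nrm_le _ _ zero_le_one fun y => ?_
  have h : ∀ z, |(1 : Matrix Y Y ℝ) y z| = if y = z then 1 else 0 := by
    intro z
    rw [Matrix.one_apply]
    split_ifs <;> simp
  rw [Finset.sum_congr rfl fun z _ => h z]
  simp

/-- `c - B` -/
def cB (B : Matrix Y Y ℤ) (c : ℕ) : Matrix Y Y ℤ := (c : ℤ) • (1 : Matrix Y Y ℤ) - B

theorem cB_DD (B : Matrix Y Y ℤ) (c : ℕ) (h1 : ∀ y, ∑ z, |B y z| ≤ c) (h2 : ∀ y, ∑ z, |B z y| ≤ c) :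
    DD (cB B c) := by
  have key : ∀ (y : Y) (f : Y → ℤ), ∑ z, |f z| ≤ c →
      ∑ z, |(if z = y then (c : ℤ) else 0) - f z| ≤ 2 * (c - f y) := by
    intro y f hf
    rw [← Finset.add_sum_erase _ _ (Finset.mem_univ y)] at hf ⊢
    have h3 : ∑ z ∈ Finset.univ.erase y, |(if z = y then (c : ℤ) else 0) - f z| =
        ∑ z ∈ Finset.univ.erase y, |f z| := by
      refine Finset.sum_congr rfl fun z hz => ?_
      rw [if_neg (Finset.ne_of_mem_erase hz), zero_sub, abs_neg]
    rw [h3, if_pos rfl]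
    have h4 : 0 ≤ ∑ z ∈ Finset.univ.erase y, |f z| := Finset.sum_nonneg fun z _ => abs_nonneg _
    have h5 := le_abs_self (f y)
    rw [abs_of_nonneg (by omega)]
    omega
  constructor
  · intro y
    have h3 := key y (fun z => B y z) (h1 y)
    have h4 : ∀ z, cB B c y z = (if z = y then (c : ℤ) else 0) - B y z := by
      intro z
      simp only [cB, Matrix.sub_apply, Matrix.smul_apply, Matrix.one_apply, smul_eq_mul]
      by_cases h : z = y
      · subst h; simp
      · simp [h, Ne.symm h]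
    simp only [h4, if_pos rfl] at h3 ⊢
    simpa using h3
  · intro y
    have h3 := key y (fun z => B z y) (h2 y)
    have h4 : ∀ z, cB B c z y = (if z = y then (c : ℤ) else 0) - B z y := by
      intro z
      simp only [cB, Matrix.sub_apply, Matrix.smul_apply, Matrix.one_apply, smul_eq_mul]
      by_cases h : z = y
      · subst h; simp
      · simp [h]
    simp only [h4, if_pos rfl] at h3 ⊢
    simpa using h3

/-- the real matrix -/
def Br (B : Matrix Y Y ℤ) : Matrix Y Y ℝ := B.map (fun x : ℤ => (x : ℝ))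

theorem Br_pow (B : Matrix Y Y ℤ) (k : ℕ) : Br B ^ k = Br (B ^ k) := by
  have : Br B = (Int.castRingHom ℝ).mapMatrix B := rfl
  rw [this, ← map_pow]
  rfl

/-- the truncated Green function -/
noncomputable def TK (B : Matrix Y Y ℤ) (c : ℕ) (s : ℝ) (K : ℕ) (y : Y) : ℝ :=
  ∑ k ∈ range K, ((c : ℝ) + s)⁻¹ ^ (k + 1) * ((B ^ k) y y : ℝ)

theorem Ms_cB (B : Matrix Y Y ℤ) (c : ℕ) (s : ℝ) :
    Ms (cB B c) s = ((c : ℝ) + s) • (1 : Matrix Y Y ℝ) - Br B := by
  ext y z
  simp only [Ms, cB, Br, Matrix.add_apply, Matrix.map_apply, Matrix.sub_apply, Matrix.smul_apply,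
    Matrix.one_apply, smul_eq_mul]
  push_cast
  split_ifs <;> simp <;> ring

theorem Br_nrm (B : Matrix Y Y ℤ) (c : ℕ) (h1 : ∀ y, ∑ z, |B y z| ≤ c) : ‖Br B‖ ≤ c := by
  refine nrm_le _ _ (Nat.cast_nonneg c) fun y => ?_
  simp only [Br, Matrix.map_apply]
  exact_mod_cast h1 y

theorem G_nrm (B : Matrix Y Y ℤ) (c : ℕ) (h1 : ∀ y, ∑ z, |B y z| ≤ c) (h2 : ∀ y, ∑ z, |B z y| ≤ c)
    (s : ℝ) (hs : 0 < s) : ‖Gs (cB B c) s‖ ≤ 1 / s := by
  have h3 := Ms_Gs (cB B c) (cB_DD B c h1 h2) s hs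
  set g := Gs (cB B c) s with hg
  rw [Ms_cB, sub_mul, Matrix.smul_mul, Matrix.one_mul, sub_eq_iff_eq_add] at h3
  have h4 : ‖((c : ℝ) + s) • g‖ ≤ 1 + c * ‖g‖ := by
    rw [h3]
    refine (norm_add_le _ _).trans (add_le_add ?_ ?_)
    · exact nrm_one
    · refine (norm_mul_le _ _).trans ?_
      exact mul_le_mul_of_nonneg_right (Br_nrm B c h1) (norm_nonneg _)
  have hc : (0 : ℝ) ≤ c := Nat.cast_nonneg c
  rw [norm_smul, Real.norm_of_nonneg (by linarith)] at h4
  rw [le_div_iff₀ hs]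
  linarith

/-- the Green function is approximated by its power series -/
theorem G_TK (B : Matrix Y Y ℤ) (c : ℕ) (h1 : ∀ y, ∑ z, |B y z| ≤ c) (h2 : ∀ y, ∑ z, |B z y| ≤ c)
    (s : ℝ) (hs : 0 < s) (K : ℕ) (y : Y) :
    |Gs (cB B c) s y y - TK B c s K y| ≤ 1 / s * ((c : ℝ) / (c + s)) ^ K := by
  have hc : (0 : ℝ) ≤ c := Nat.cast_nonneg c
  have hcs : (0 : ℝ) < c + s := by linarith
  set a : ℝ := ((c : ℝ) + s)⁻¹ with ha
  have ha0 : 0 < a := by positivity
  set R : Matrix Y Y ℝ := a • Br B with hR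
  set T : Matrix Y Y ℝ := a • ∑ k ∈ range K, R ^ k with hT
  have hT1 : ∀ y, T y y = TK B c s K y := by
    intro y
    rw [hT, TK, Matrix.smul_apply, Matrix.sum_apply, Finset.smul_sum]
    refine Finset.sum_congr rfl fun k _ => ?_
    rw [hR, smul_pow, Br_pow, Matrix.smul_apply, smul_eq_mul, smul_eq_mul, pow_succ]
    simp only [Br, Matrix.map_apply]
    ring
  have h3 : T * Ms (cB B c) s = 1 - R ^ K := by
    have h4 : Ms (cB B c) s = ((c : ℝ) + s) • (1 - R) := by
      rw [Ms_cB, smul_sub, hR, smul_smul, ha, mul_inv_cancel₀ hcs.ne', one_smul]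
    rw [h4, hT, Matrix.smul_mul, Matrix.mul_smul, smul_smul, ha, inv_mul_cancel₀ hcs.ne', one_smul,
      geom_sum_mul_neg]
  have h4 : Gs (cB B c) s - T = R ^ K * Gs (cB B c) s := by
    have h5 : T * Ms (cB B c) s * Gs (cB B c) s = (1 - R ^ K) * Gs (cB B c) s := by rw [h3]
    rw [Matrix.mul_assoc, Ms_Gs _ (cB_DD B c h1 h2) s hs, Matrix.mul_one, sub_mul, Matrix.one_mul] at h5
    rw [h5]
    abel
  rw [← hT1]
  have h5 : Gs (cB B c) s y y - T y y = (Gs (cB B c) s - T) y y := rfl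
  rw [h5, h4]
  refine (abs_le_nrm _ y y).trans ((norm_mul_le _ _).trans ?_)
  rw [mul_comm]
  have hRn : ‖R‖ ≤ (c : ℝ) / (c + s) := by
    rw [hR, norm_smul, Real.norm_of_nonneg ha0.le, div_eq_inv_mul]
    exact mul_le_mul_of_nonneg_left (Br_nrm B c h1) ha0.le
  refine mul_le_mul (G_nrm B c h1 h2 s hs) ?_ (norm_nonneg _) (by positivity)
  rcases Nat.eq_zero_or_pos K with h | h
  · subst h
    rw [pow_zero, pow_zero]
    exact nrm_one
  · exact (norm_pow_le' R h).trans (pow_le_pow_left₀ (norm_nonneg _) hRn K)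

theorem pow_entry (B : Matrix Y Y ℤ) (c : ℕ) (h1 : ∀ y, ∑ z, |B y z| ≤ c) (k : ℕ) (y : Y) :
    |((B ^ k) y y : ℝ)| ≤ (c : ℝ) ^ k := by
  have h2 : |((B ^ k) y y : ℝ)| ≤ ‖Br (B ^ k)‖ := abs_le_nrm (Br (B ^ k)) y y
  refine h2.trans ?_
  rw [← Br_pow]
  rcases Nat.eq_zero_or_pos k with h | h
  · subst h
    rw [pow_zero, pow_zero]
    exact nrm_one
  · exact (norm_pow_le' _ h).trans (pow_le_pow_left₀ (norm_nonneg _) (Br_nrm B c h1) k)

end norm

/-- the truncated logarithm of the determinant -/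
noncomputable def FK (B : Matrix Y Y ℤ) (c : ℕ) (s : ℝ) (K : ℕ) : ℝ :=
  Fintype.card Y * Real.log (c + s) -
    ∑ k ∈ range K, (((B ^ (k + 1)).trace : ℤ) : ℝ) / ((k + 1) * ((c : ℝ) + s) ^ (k + 1))

theorem FK_deriv (B : Matrix Y Y ℤ) (c : ℕ) (s : ℝ) (hs : 0 < s) (K : ℕ) :
    HasDerivAt (fun t => FK B c t K) (∑ y, TK B c s (K + 1) y) s := by
  have hc : (0 : ℝ) ≤ c := Nat.cast_nonneg c
  have hcs : (0 : ℝ) < c + s := by linarith
  unfold FK
  have h1 : HasDerivAt (fun t : ℝ => (c : ℝ) + t) 1 s := (hasDerivAt_id s).const_add _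
  have h2 : HasDerivAt (fun t : ℝ => (Fintype.card Y : ℝ) * Real.log (c + t))
      ((Fintype.card Y : ℝ) * (1 / (c + s))) s := (h1.log hcs.ne').const_mul _
  have h3 : ∀ k ∈ range K, HasDerivAt (fun t : ℝ => (((B ^ (k + 1)).trace : ℤ) : ℝ) /
      ((k + 1) * ((c : ℝ) + t) ^ (k + 1)))
      (- ((((B ^ (k + 1)).trace : ℤ) : ℝ) * ((c : ℝ) + s)⁻¹ ^ (k + 2))) s := by
    intro k _
    have h4 : HasDerivAt (fun t : ℝ => ((c : ℝ) + t) ^ (k + 1))
        (((k + 1 : ℕ) : ℝ) * ((c : ℝ) + s) ^ k * 1) s := by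
      exact h1.fun_pow (k + 1)
    have h5 := ((h4.const_mul ((k : ℝ) + 1)).inv (by positivity)).const_mul
      (((B ^ (k + 1)).trace : ℤ) : ℝ)
    refine (h5.congr_deriv ?_)
    push_cast
    rw [inv_pow]
    field_simp
    ring
  refine (h2.sub (HasDerivAt.fun_sum h3)).congr_deriv ?_
  unfold TK
  rw [Finset.sum_comm, Finset.sum_range_succ', Finset.sum_neg_distrib, sub_neg_eq_add, add_comm]
  congr 1
  · refine Finset.sum_congr rfl fun k _ => ?_
    rw [← Finset.mul_sum, mul_comm]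
    congr 1
    simp [Matrix.trace]
  · simp [mul_comm]

theorem log_lim (B : Matrix Y Y ℤ) (c : ℕ) (K : ℕ) :
    Tendsto (fun t : ℝ => Real.log (Ms (cB B c) t).det - FK B c t K) atTop (𝓝 0) := by
  have hc : (0 : ℝ) ≤ c := Nat.cast_nonneg c
  have hinv : Tendsto (fun t : ℝ => ((c : ℝ) + t)⁻¹) atTop (𝓝 0) :=
    tendsto_inv_atTop_zero.comp (tendsto_atTop_add_const_left _ _ tendsto_id)
  have h1 : Tendsto (fun t : ℝ => Real.log ((1 : Matrix Y Y ℝ) - ((c : ℝ) + t)⁻¹ • Br B).det) atTop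
      (𝓝 0) := by
    have h2 : Continuous fun a : ℝ => ((1 : Matrix Y Y ℝ) - a • Br B).det :=
      Continuous.matrix_det (by fun_prop)
    have h3 : Tendsto (fun t : ℝ => ((1 : Matrix Y Y ℝ) - ((c : ℝ) + t)⁻¹ • Br B).det) atTop
        (𝓝 1) := by
      have h4 := (h2.tendsto 0).comp hinv
      simpa [Function.comp_def] using h4
    have h5 := (Real.continuousAt_log one_ne_zero).tendsto.comp h3
    rw [Real.log_one] at h5
    exact h5
  have h2 : Tendsto (fun t : ℝ => ∑ k ∈ range K, (((B ^ (k + 1)).trace : ℤ) : ℝ) /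
      ((k + 1) * ((c : ℝ) + t) ^ (k + 1))) atTop (𝓝 0) := by
    have h3 : ∀ k ∈ range K, Tendsto (fun t : ℝ => (((B ^ (k + 1)).trace : ℤ) : ℝ) /
      ((k + 1) * ((c : ℝ) + t) ^ (k + 1))) atTop (𝓝 0) := by
      intro k _
      have h4 : Tendsto (fun t : ℝ => (((B ^ (k + 1)).trace : ℤ) : ℝ) / ((k : ℝ) + 1) *
        (((c : ℝ) + t)⁻¹) ^ (k + 1)) atTop (𝓝 ((((B ^ (k + 1)).trace : ℤ) : ℝ) / ((k : ℝ) + 1) *
          0 ^ (k + 1))) := (hinv.pow (k + 1)).const_mul _
      rw [zero_pow (Nat.succ_ne_zero k), mul_zero] at h4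
      refine h4.congr fun t => ?_
      rw [inv_pow]
      field_simp
    have h4 := tendsto_finsetSum (range K) h3
    simpa using h4
  have h3 := h1.add h2
  rw [add_zero] at h3
  refine h3.congr' ?_
  have h4 : ∀ᶠ t : ℝ in atTop, ((1 : Matrix Y Y ℝ) - ((c : ℝ) + t)⁻¹ • Br B).det ≠ 0 := by
    have h2 : Continuous fun a : ℝ => ((1 : Matrix Y Y ℝ) - a • Br B).det :=
      Continuous.matrix_det (by fun_prop)
    have h3 : Tendsto (fun t : ℝ => ((1 : Matrix Y Y ℝ) - ((c : ℝ) + t)⁻¹ • Br B).det) atTop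
        (𝓝 1) := by
      have h4 := (h2.tendsto 0).comp hinv
      simpa [Function.comp_def] using h4
    exact h3.eventually_ne one_ne_zero
  filter_upwards [h4, eventually_gt_atTop 0] with t ht ht0
  have hct : (0 : ℝ) < c + t := by linarith
  have h5 : Ms (cB B c) t = ((c : ℝ) + t) • ((1 : Matrix Y Y ℝ) - ((c : ℝ) + t)⁻¹ • Br B) := by
    rw [Ms_cB, smul_sub, smul_smul, mul_inv_cancel₀ hct.ne', one_smul]
  rw [h5, det_smul, Real.log_mul (by positivity) ht, Real.log_pow]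
  unfold FK
  ring

/-- the logarithm of the determinant is approximated by its power series -/
theorem log_FK (B : Matrix Y Y ℤ) (c : ℕ) (h1 : ∀ y, ∑ z, |B y z| ≤ c) (h2 : ∀ y, ∑ z, |B z y| ≤ c)
    (s : ℝ) (hs : 0 < s) (K : ℕ) (hK : 1 ≤ K) :
    |Real.log (Ms (cB B c) s).det - FK B c s K| ≤
      Fintype.card Y * (c / (K * s) * ((c : ℝ) / (c + s)) ^ K) := by
  have hc : (0 : ℝ) ≤ c := Nat.cast_nonneg c
  have hKr : (0 : ℝ) < K := by exact_mod_cast hK
  set m : ℝ := (Fintype.card Y : ℝ) with hm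
  have hm0 : 0 ≤ m := Nat.cast_nonneg _
  set D : ℝ → ℝ := fun t => Real.log (Ms (cB B c) t).det - FK B c t K with hD
  set b : ℝ → ℝ := fun t => m * c ^ (K + 1) / (K * s) * ((c : ℝ) + t)⁻¹ ^ K with hb
  have hD' : ∀ t, 0 < t → HasDerivAt D ((Gs (cB B c) t).trace - ∑ y, TK B c t (K + 1) y) t :=
    fun t ht => (hasDerivAt_log _ (cB_DD B c h1 h2) t ht).sub (FK_deriv B c t ht K)
  have hb' : ∀ t, 0 < t → HasDerivAt b (-(m * c ^ (K + 1) / s * ((c : ℝ) + t)⁻¹ ^ (K + 1))) t := by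
    intro t ht
    have hct : (0 : ℝ) < c + t := by linarith
    have h3 : HasDerivAt (fun t : ℝ => (c : ℝ) + t) 1 t := (hasDerivAt_id t).const_add _
    have h4 := ((h3.inv hct.ne').pow K).const_mul (m * c ^ (K + 1) / (K * s))
    refine (h4.congr_deriv ?_)
    obtain ⟨j, rfl⟩ : ∃ j, K = j + 1 := ⟨K - 1, by omega⟩
    simp only [Nat.add_sub_cancel, Pi.inv_apply, inv_pow]
    field_simp
    ring
  have hDb : ∀ t, s ≤ t → |(Gs (cB B c) t).trace - ∑ y, TK B c t (K + 1) y| ≤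
      m * c ^ (K + 1) / s * ((c : ℝ) + t)⁻¹ ^ (K + 1) := by
    intro t ht
    have ht0 : 0 < t := lt_of_lt_of_le hs ht
    have hct : (0 : ℝ) < c + t := by linarith
    have h3 : (Gs (cB B c) t).trace - ∑ y, TK B c t (K + 1) y =
        ∑ y, (Gs (cB B c) t y y - TK B c t (K + 1) y) := by
      rw [Finset.sum_sub_distrib]
      rfl
    rw [h3]
    refine (Finset.abs_sum_le_sum_abs _ _).trans ?_
    have h4 : ∑ y : Y, |Gs (cB B c) t y y - TK B c t (K + 1) y| ≤
        ∑ y : Y, 1 / t * ((c : ℝ) / (c + t)) ^ (K + 1) :=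
      Finset.sum_le_sum fun y _ => G_TK B c h1 h2 t ht0 (K + 1) y
    refine h4.trans ?_
    rw [Finset.sum_const, nsmul_eq_mul, Finset.card_univ, ← hm]
    have h5 : m * (1 / t * ((c : ℝ) / (c + t)) ^ (K + 1)) =
        m * c ^ (K + 1) / t * ((c : ℝ) + t)⁻¹ ^ (K + 1) := by
      rw [div_pow, inv_pow]
      field_simp
    rw [h5]
    gcongr
  have hDlim : Tendsto D atTop (𝓝 0) := log_lim B c K
  have hblim : Tendsto b atTop (𝓝 0) := by
    have hinv : Tendsto (fun t : ℝ => ((c : ℝ) + t)⁻¹) atTop (𝓝 0) :=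
      tendsto_inv_atTop_zero.comp (tendsto_atTop_add_const_left _ _ tendsto_id)
    have := (hinv.pow K).const_mul (m * c ^ (K + 1) / (K * s))
    rw [zero_pow (by omega), mul_zero] at this
    exact this
  have hbs : b s = m * (c / (K * s) * ((c : ℝ) / (c + s)) ^ K) := by
    have hcs : (0 : ℝ) < c + s := by linarith
    simp only [hb]
    rw [div_pow, inv_pow]
    field_simp
    ring
  rw [← hbs]
  have hanti : AntitoneOn (fun t => D t + b t) (Set.Ici s) := by
    refine antitoneOn_of_deriv_nonpos (convex_Ici s) ?_ ?_ ?_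
    · intro t ht
      have ht0 : 0 < t := lt_of_lt_of_le hs ht
      exact ((hD' t ht0).add (hb' t ht0)).continuousAt.continuousWithinAt
    · intro t ht
      rw [interior_Ici] at ht
      have ht0 : 0 < t := hs.trans ht
      exact ((hD' t ht0).add (hb' t ht0)).differentiableAt.differentiableWithinAt
    · intro t ht
      rw [interior_Ici] at ht
      have ht0 : 0 < t := hs.trans ht
      have h3 : HasDerivAt (fun t => D t + b t) _ t := (hD' t ht0).add (hb' t ht0)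
      rw [h3.deriv]
      have h4 := (abs_le.1 (hDb t (le_of_lt ht))).2
      linarith
  have hmono : MonotoneOn (fun t => D t - b t) (Set.Ici s) := by
    refine monotoneOn_of_deriv_nonneg (convex_Ici s) ?_ ?_ ?_
    · intro t ht
      have ht0 : 0 < t := lt_of_lt_of_le hs ht
      exact ((hD' t ht0).sub (hb' t ht0)).continuousAt.continuousWithinAt
    · intro t ht
      rw [interior_Ici] at ht
      have ht0 : 0 < t := hs.trans ht
      exact ((hD' t ht0).sub (hb' t ht0)).differentiableAt.differentiableWithinAt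
    · intro t ht
      rw [interior_Ici] at ht
      have ht0 : 0 < t := hs.trans ht
      have h3 : HasDerivAt (fun t => D t - b t) _ t := (hD' t ht0).sub (hb' t ht0)
      rw [h3.deriv]
      have h4 := (abs_le.1 (hDb t (le_of_lt ht))).1
      linarith
  rw [abs_le]
  constructor
  · have h3 : 0 ≤ D s + b s := by
      have h4 : Tendsto (fun t => D t + b t) atTop (𝓝 0) := by simpa using hDlim.add hblim
      refine le_of_tendsto h4 ?_
      filter_upwards [eventually_ge_atTop s] with t ht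
      exact hanti Set.self_mem_Ici ht ht
    change - b s ≤ D s
    linarith
  · have h3 : D s - b s ≤ 0 := by
      have h4 : Tendsto (fun t => D t - b t) atTop (𝓝 0) := by simpa using hDlim.sub hblim
      refine ge_of_tendsto h4 ?_
      filter_upwards [eventually_ge_atTop s] with t ht
      exact hmono Set.self_mem_Ici ht ht
    change D s ≤ b s
    linarith

end Pool.Agent.V8H82.DM
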